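import Pool.Agent.Q255.SV.Low
import Mathlib.NumberTheory.EulerProduct.Basic

/-!
# The logarithm of a twisted Euler product
-/

set_option autoImplicit false

namespace Pool.Agent.Q255.SV

open Filter Topology MeasureTheory Finset
open Pool.Agent.Q255.IC Pool.Agent.Q255.IR Pool.Agent.Q255.EP Pool.Agent.Q13.EP

/-- the terms of higher order -/
noncomputable def ht (c : ℂ) (p : ℕ) (s : ℂ) : ℂ :=
  -Complex.log (1 - c * (p : ℂ) ^ (-s)) - c * (p : ℂ) ^ (-s)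

theorem x_norm {c : ℂ} (hc : ‖c‖ ≤ 1) {n : ℕ} (hn : 0 < n) (s : ℂ) :
    ‖c * (n : ℂ) ^ (-s)‖ ≤ (n : ℝ) ^ (-s.re) := by
  rw [norm_mul, Complex.norm_natCast_cpow_of_pos hn, Complex.neg_re]
  exact mul_le_of_le_one_left (Real.rpow_nonneg (Nat.cast_nonneg _) _) hc

theorem x_norm_le {c : ℂ} (hc : ‖c‖ ≤ 1) {n : ℕ} (hn : 2 ≤ n) {s : ℂ} (hs : 1 / 2 < s.re) :
    ‖c * (n : ℂ) ^ (-s)‖ ≤ 3 / 4 := by
  have hn2 : (2 : ℝ) ≤ n := by exact_mod_cast hn
  refine (x_norm hc (by omega) s).trans ?_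
  have h0 : (0 : ℝ) ≤ (n : ℝ) ^ (-s.re) := Real.rpow_nonneg (Nat.cast_nonneg _) _
  have h1 : ((n : ℝ) ^ (-s.re)) ^ 2 ≤ 1 / 2 := by
    have e : ((n : ℝ) ^ (-s.re)) ^ 2 = (n : ℝ) ^ (-2 * s.re) := by
      rw [← Real.rpow_natCast, ← Real.rpow_mul (Nat.cast_nonneg _)]
      congr 1
      push_cast
      ring
    rw [e]
    calc (n : ℝ) ^ (-2 * s.re) ≤ (n : ℝ) ^ (-1 : ℝ) :=
          Real.rpow_le_rpow_of_exponent_le (by linarith) (by linarith)
      _ = (n : ℝ)⁻¹ := Real.rpow_neg_one _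
      _ ≤ 1 / 2 := by
        rw [one_div]
        exact inv_anti₀ (by norm_num) hn2
  by_contra h2
  push Not at h2
  nlinarith

theorem ht_bound {c : ℂ} (hc : ‖c‖ ≤ 1) {p : ℕ} (hp : 2 ≤ p) {s : ℂ} {σ : ℝ} (hσ : 1 / 2 < σ)
    (hs : σ ≤ s.re) : ‖ht c p s‖ ≤ 2 * (p : ℝ) ^ (-2 * σ) := by
  unfold ht
  have hn1 : (1 : ℝ) ≤ (p : ℝ) := by exact_mod_cast (by omega : 1 ≤ p)
  have h1 := x_norm_le hc hp (s := s) (by linarith)
  have h5' := x_norm hc (n := p) (by omega) s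
  generalize c * (p : ℂ) ^ (-s) = z at *
  have h2 : ‖-z‖ < 1 := by rw [norm_neg]; linarith
  have h3 := Complex.norm_log_one_add_sub_self_le h2
  rw [norm_neg] at h3
  have e1 : -Complex.log (1 - z) - z = -(Complex.log (1 + -z) - -z) := by
    rw [← sub_eq_add_neg]
    ring
  rw [e1, norm_neg]
  have h4 : (1 - ‖z‖)⁻¹ ≤ 4 := by
    rw [inv_le_comm₀ (by linarith) (by norm_num)]
    linarith
  have h5 : ‖z‖ ^ 2 ≤ (p : ℝ) ^ (-2 * σ) := by
    have e : ((p : ℝ) ^ (-s.re)) ^ 2 = (p : ℝ) ^ (-2 * s.re) := by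
      rw [← Real.rpow_natCast, ← Real.rpow_mul (Nat.cast_nonneg _)]
      congr 1
      push_cast
      ring
    calc ‖z‖ ^ 2 ≤ ((p : ℝ) ^ (-s.re)) ^ 2 := pow_le_pow_left₀ (norm_nonneg _) h5' 2
      _ = (p : ℝ) ^ (-2 * s.re) := e
      _ ≤ _ := Real.rpow_le_rpow_of_exponent_le hn1 (by linarith)
  have h6 : ‖z‖ ^ 2 * (1 - ‖z‖)⁻¹ ≤ ‖z‖ ^ 2 * 4 :=
    mul_le_mul_of_nonneg_left h4 (sq_nonneg _)
  linarith

theorem ht_diff {c : ℂ} (hc : ‖c‖ ≤ 1) {p : ℕ} (hp : 2 ≤ p) :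
    DifferentiableOn ℂ (ht c p) {s | 1 / 2 < s.re} := by
  intro s hs
  apply DifferentiableAt.differentiableWithinAt
  unfold ht
  have hn0 : (p : ℂ) ≠ 0 := by exact_mod_cast (by omega : p ≠ 0)
  have h1 : DifferentiableAt ℂ (fun s : ℂ => c * (p : ℂ) ^ (-s)) s :=
    (differentiableAt_id.neg.const_cpow (Or.inl hn0)).const_mul _
  have h2 : (1 - c * (p : ℂ) ^ (-s)) ∈ Complex.slitPlane := by
    left
    have h3 := x_norm_le hc hp (s := s) hs
    have h4 := Complex.abs_re_le_norm (c * (p : ℂ) ^ (-s))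
    have h5 := (abs_le.1 h4).2
    rw [Complex.sub_re, Complex.one_re]
    linarith
  exact ((((differentiableAt_const _).sub h1).clog h2).neg).sub h1

/-- the analytic part of the logarithm -/
noncomputable def HH {m : ℕ} (c : ℕ → Fin m → ℂ) (s : ℂ) : ℂ := ∑' p : Nat.Primes, ∑ j, ht (c p j) p s

theorem HH_bound {m : ℕ} {c : ℕ → Fin m → ℂ} (hc : ∀ p j, ‖c p j‖ ≤ 1) (p : Nat.Primes) {s : ℂ} {σ : ℝ}
    (hσ : 1 / 2 < σ) (hs : σ ≤ s.re) : ‖∑ j, ht (c p j) p s‖ ≤ m * (2 * ((p : ℕ) : ℝ) ^ (-2 * σ)) := by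
  refine (norm_sum_le _ _).trans ?_
  refine (sum_le_sum fun j _ => ht_bound (hc p j) p.2.two_le hσ hs).trans (le_of_eq ?_)
  rw [sum_const, card_univ, Fintype.card_fin, nsmul_eq_mul]

theorem HH_sb (m : ℕ) {σ : ℝ} (hσ : 1 / 2 < σ) :
    Summable fun p : Nat.Primes => (m : ℝ) * (2 * ((p : ℕ) : ℝ) ^ (-2 * σ)) :=
  (((Real.summable_nat_rpow.2 (by linarith)).mul_left 2).comp_injective
    Nat.Primes.coe_nat_injective).mul_left _

theorem HH_diff {m : ℕ} {c : ℕ → Fin m → ℂ} (hc : ∀ p j, ‖c p j‖ ≤ 1) :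
    DifferentiableOn ℂ (HH c) {s | 1 / 2 < s.re} := by
  intro s hs
  have hs' : 1 / 2 < s.re := hs
  obtain ⟨σ, h1, h2⟩ := exists_between hs'
  have hopen : IsOpen {s : ℂ | σ < s.re} := isOpen_lt continuous_const Complex.continuous_re
  have h3 : DifferentiableOn ℂ (HH c) {s | σ < s.re} := by
    refine Complex.differentiableOn_tsum_of_summable_norm (HH_sb m h1)
      (fun p => DifferentiableOn.fun_sum fun j _ => (ht_diff (hc p j) p.2.two_le).mono fun w hw => ?_)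
      hopen fun p w hw => ?_
    · have hw' : σ < w.re := hw
      show 1 / 2 < w.re
      linarith
    · exact HH_bound hc p h1 (le_of_lt hw)
  exact (h3.differentiableAt (hopen.mem_nhds h2)).differentiableWithinAt

/-- an Euler product of degree `m` with the parameters `α` -/
structure Eul {m : ℕ} (α : ℕ → Fin m → ℂ) (a : ℕ → ℂ) : Prop where
  bd : ∀ p j, ‖α p j‖ ≤ 1
  one : a 1 = 1
  mul : ∀ u v : ℕ, Nat.Coprime u v → a (u * v) = a u * a v
  lin : ∀ p : ℕ, p.Prime → a p = ∑ j, α p j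
  loc : ∀ p : ℕ, p.Prime → ∀ z : ℂ, ‖z‖ < 1 → HasSum (fun k : ℕ => a (p ^ k) * z ^ k) (∏ j, (1 - α p j * z)⁻¹)

theorem cm_pow' (ω : ℕ → Bool) {p : ℕ} (hp : p ≠ 0) (e : ℕ) : cm ω (p ^ e) = cm ω p ^ e := by
  induction e with
  | zero => simp [cm_one]
  | succ e ih => rw [pow_succ, cm_mul ω (pow_ne_zero _ hp) hp, ih, pow_succ]

theorem cpow_pow' (p e : ℕ) (s : ℂ) : ((p ^ e : ℕ) : ℂ) ^ (-s) = ((p : ℂ) ^ (-s)) ^ e := by
  induction e with
  | zero => simp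
  | succ e ih => rw [pow_succ, Nat.cast_mul, Complex.natCast_mul_natCast_cpow, ih, pow_succ]

/-- **The Euler product of the twist.** -/
theorem euler {m : ℕ} {α : ℕ → Fin m → ℂ} {a : ℕ → ℂ} (hE : Eul α a) {C : ℝ}
    (hC : ∀ n : ℕ, 1 ≤ n → ‖a n‖ ≤ C * (n : ℝ) ^ (1 / 4 : ℝ)) (ω : ℕ → Bool) {s : ℂ} (hs : 3 / 2 < s.re) :
    LSeries (fun n => a n * (cm ω n : ℂ)) s =
      Complex.exp (HH (fun p j => α p j * (cm ω p : ℂ)) s +
        ∑' p : Nat.Primes, a p * (cm ω p : ℂ) * ((p : ℕ) : ℂ) ^ (-s)) := by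
  have hcm : ∀ n, ‖(cm ω n : ℂ)‖ = 1 := fun n => by
    rw [Complex.norm_real, Real.norm_eq_abs, abs_cm]
  set c : ℕ → Fin m → ℂ := fun p j => α p j * (cm ω p : ℂ) with hc
  have hc1 : ∀ p j, ‖c p j‖ ≤ 1 := fun p j => by
    rw [hc]
    show ‖α p j * (cm ω p : ℂ)‖ ≤ 1
    rw [norm_mul, hcm, mul_one]
    exact hE.bd p j
  have hs0 : s ≠ 0 := by
    intro h
    rw [h, Complex.zero_re] at hs
    linarith
  -- the function
  let F : ℕ → ℂ := fun n => a n * (cm ω n : ℂ) * (n : ℂ) ^ (-s)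
  have hF0 : F 0 = 0 := by
    show a 0 * (cm ω 0 : ℂ) * ((0 : ℕ) : ℂ) ^ (-s) = 0
    rw [Nat.cast_zero, Complex.zero_cpow (neg_ne_zero.2 hs0), mul_zero]
  have hC0 : 0 ≤ C := by
    have := (norm_nonneg _).trans (hC 1 le_rfl)
    simpa using this
  have hsum : Summable fun n => ‖F n‖ := by
    refine Summable.of_nonneg_of_le (fun n => norm_nonneg _) (f := fun n : ℕ => C * (n : ℝ) ^ (1 / 4 - s.re))
      (fun n => ?_) ((Real.summable_nat_rpow.2 (by linarith)).mul_left C)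
    rcases Nat.eq_zero_or_pos n with h | h
    · subst h
      rw [hF0, norm_zero]
      positivity
    · have hn0 : (0 : ℝ) < n := by exact_mod_cast h
      show ‖a n * (cm ω n : ℂ) * (n : ℂ) ^ (-s)‖ ≤ _
      rw [norm_mul, norm_mul, hcm, mul_one, Complex.norm_natCast_cpow_of_pos h, Complex.neg_re]
      have h1 : (0 : ℝ) ≤ (n : ℝ) ^ (-s.re) := by positivity
      calc ‖a n‖ * (n : ℝ) ^ (-s.re) ≤ C * (n : ℝ) ^ (1 / 4 : ℝ) * (n : ℝ) ^ (-s.re) :=
            mul_le_mul_of_nonneg_right (hC n h) h1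
        _ = _ := by rw [mul_assoc, ← Real.rpow_add hn0, sub_eq_add_neg]
  have hprod := EulerProduct.eulerProduct_hasProd (f := F) (by
      show a 1 * (cm ω 1 : ℂ) * ((1 : ℕ) : ℂ) ^ (-s) = 1
      rw [hE.one, cm_one]
      simp) (fun {u v} huv => by
      rcases eq_or_ne u 0 with hu | hu
      · subst hu
        rw [zero_mul, hF0, zero_mul]
      rcases eq_or_ne v 0 with hv | hv
      · subst hv
        rw [mul_zero, hF0, mul_zero]
      show a (u * v) * (cm ω (u * v) : ℂ) * ((u * v : ℕ) : ℂ) ^ (-s) = _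
      rw [hE.mul u v huv, cm_mul ω hu hv, Nat.cast_mul, Complex.natCast_mul_natCast_cpow]
      push_cast
      show _ = a u * (cm ω u : ℂ) * (u : ℂ) ^ (-s) * (a v * (cm ω v : ℂ) * (v : ℂ) ^ (-s))
      ring) hsum hF0
  have hlocal : ∀ p : Nat.Primes, ∑' e : ℕ, F ((p : ℕ) ^ e) =
      Complex.exp (∑ j, ht (c p j) p s + a p * (cm ω p : ℂ) * ((p : ℕ) : ℂ) ^ (-s)) := by
    intro p
    have hx : ‖(cm ω p : ℂ) * ((p : ℕ) : ℂ) ^ (-s)‖ < 1 := by
      have := x_norm_le (c := (cm ω p : ℂ)) (hcm p).le p.2.two_le (s := s) (by linarith)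
      linarith
    have h1 := hE.loc p p.2 _ hx
    have h2 : (fun e : ℕ => F ((p : ℕ) ^ e)) =
        fun e : ℕ => a ((p : ℕ) ^ e) * ((cm ω p : ℂ) * ((p : ℕ) : ℂ) ^ (-s)) ^ e := by
      funext e
      show a ((p : ℕ) ^ e) * (cm ω ((p : ℕ) ^ e) : ℂ) * (((p : ℕ) ^ e : ℕ) : ℂ) ^ (-s) = _
      rw [cm_pow' ω p.2.ne_zero, cpow_pow', mul_pow]
      push_cast
      ring
    rw [h2, h1.tsum_eq]
    have h3 : ∑ j, ht (c p j) p s + a p * (cm ω p : ℂ) * ((p : ℕ) : ℂ) ^ (-s) =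
        ∑ j, -Complex.log (1 - c p j * ((p : ℕ) : ℂ) ^ (-s)) := by
      rw [hE.lin p p.2, sum_mul, sum_mul, ← sum_add_distrib]
      refine sum_congr rfl fun j _ => ?_
      unfold ht
      rw [hc]
      ring
    rw [h3, Complex.exp_sum]
    refine prod_congr rfl fun j _ => ?_
    have h4 : 1 - c p j * ((p : ℕ) : ℂ) ^ (-s) ≠ 0 := by
      intro h
      have h5 := x_norm_le (hc1 p j) p.2.two_le (s := s) (by linarith)
      have h6 : c p j * ((p : ℕ) : ℂ) ^ (-s) = 1 := by linear_combination -h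
      rw [h6, norm_one] at h5
      norm_num at h5
    rw [Complex.exp_neg, Complex.exp_log h4, hc]
    show (1 - α p j * ((cm ω p : ℂ) * ((p : ℕ) : ℂ) ^ (-s)))⁻¹ = (1 - α p j * (cm ω p : ℂ) * ((p : ℕ) : ℂ) ^ (-s))⁻¹
    rw [mul_assoc]
  simp only [hlocal] at hprod
  have hs1 : Summable fun p : Nat.Primes => ∑ j, ht (c p j) p s :=
    Summable.of_norm_bounded (HH_sb m (σ := 3 / 4) (by norm_num))
      fun p => HH_bound hc1 p (by norm_num) (by linarith)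
  have hs2 : Summable fun p : Nat.Primes => a p * (cm ω p : ℂ) * ((p : ℕ) : ℂ) ^ (-s) :=
    Summable.of_norm (hsum.comp_injective Nat.Primes.coe_nat_injective)
  have hexp := (hs1.hasSum.add hs2.hasSum).cexp
  have hu := hprod.unique hexp
  have hL : LSeries (fun n => a n * (cm ω n : ℂ)) s = ∑' n, F n := by
    unfold LSeries
    refine tsum_congr fun n => ?_
    rcases Nat.eq_zero_or_pos n with h | h
    · subst h
      rw [hF0, LSeries.term_zero]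
    · rw [LSeries.term_of_ne_zero (by omega)]
      show _ = a n * (cm ω n : ℂ) * (n : ℂ) ^ (-s)
      rw [Complex.cpow_neg, div_eq_mul_inv]
  rw [hL, hu]
  rfl

end Pool.Agent.Q255.SV
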