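import Pool.Agent.Q255.SV.Gen

/-!
# The twisted Euler product has a singularity at `β`
-/

set_option autoImplicit false

namespace Pool.Agent.Q255.SV

open Filter Topology MeasureTheory Finset
open Pool.Agent.Q255.IC Pool.Agent.Q255.IR Pool.Agent.Q255.EP Pool.Agent.Q13.EP

/-- the mean of the sign at `n` -/
noncomputable def dk (a : ℕ → ℂ) (β : ℝ) (n : ℕ) : ℝ := (if 0 ≤ (a n).re then 1 else -1) * (n : ℝ) ^ (β - 1)

theorem abs_dk (a : ℕ → ℂ) (β : ℝ) (n : ℕ) : |dk a β n| = (n : ℝ) ^ (β - 1) := by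
  unfold dk
  rw [abs_mul, abs_of_nonneg (Real.rpow_nonneg (Nat.cast_nonneg n) (β - 1))]
  split_ifs <;> simp

theorem abs_dk_le (a : ℕ → ℂ) {β : ℝ} (hβ : β < 1) {n : ℕ} (hn : 1 ≤ n) : |dk a β n| ≤ 1 := by
  rw [abs_dk]
  exact Real.rpow_le_one_of_one_le_of_nonpos (by exact_mod_cast hn) (by linarith)

theorem csum_primes_range (g : ℕ → ℂ) (y : ℕ) :
    ∑ p ∈ (Finset.range y).filter Nat.Prime, g p =
      ∑ j ∈ Finset.range (Nat.count Nat.Prime y), g (pr j) := by
  induction y with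
  | zero => simp
  | succ y ih =>
    rw [Finset.range_add_one, Finset.filter_insert, Nat.count_succ]
    split_ifs with h
    · rw [Finset.sum_insert (by simp), Finset.sum_range_succ, ih, pr_count h, add_comm]
    · rw [ih, add_zero]

theorem lser_primes (g : ℕ → ℂ) (s : ℂ) :
    LSeries (fun n => if n.Prime then g n else 0) s = ∑' p : Nat.Primes, g p * ((p : ℕ) : ℂ) ^ (-s) := by
  classical
  have h := tsum_subtype (setOf Nat.Prime) (fun n : ℕ => g n * (n : ℂ) ^ (-s))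
  unfold LSeries
  refine Eq.trans ?_ h.symm
  refine tsum_congr fun n => ?_
  rw [Set.indicator_apply]
  by_cases hn : n.Prime
  · have h1 : n ∈ setOf Nat.Prime := hn
    rw [if_pos h1, LSeries.term_of_ne_zero hn.ne_zero, if_pos hn, Complex.cpow_neg, div_eq_mul_inv]
  · have h1 : n ∉ setOf Nat.Prime := hn
    rw [if_neg h1]
    by_cases h0 : n = 0
    · rw [h0, LSeries.term_zero]
    · rw [LSeries.term_of_ne_zero h0, if_neg hn]
      simp

theorem a_norm {m : ℕ} {α : ℕ → Fin m → ℂ} {a : ℕ → ℂ} (hE : Eul α a) {p : ℕ} (hp : p.Prime) : ‖a p‖ ≤ m := by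
  rw [hE.lin p hp]
  refine (norm_sum_le _ _).trans ((sum_le_sum fun j _ => hE.bd p j).trans (le_of_eq ?_))
  rw [sum_const, card_univ, Fintype.card_fin, nsmul_eq_mul, mul_one]

theorem pole_gen {m : ℕ} {α : ℕ → Fin m → ℂ} {a : ℕ → ℂ} (hE : Eul α a) {C : ℝ}
    (hC : ∀ n : ℕ, 1 ≤ n → ‖a n‖ ≤ C * (n : ℝ) ^ (1 / 4 : ℝ))
    (hdiv : ¬ Summable fun p : Nat.Primes => |(a p).re| / ((p : ℕ) : ℝ))
    {β : ℝ} (hβ : 1 / 2 < β) (hβ1 : β < 1) (ω : ℕ → Bool)
    (hdev : ∀ ε : ℝ, 0 < ε → ∃ C : ℝ, ∀ n : ℕ,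
      ‖∑ k ∈ Finset.range n, a (pr k) * ((sg ω k - dk a β (pr k) : ℝ) : ℂ)‖ ≤ C * ((n : ℝ) + 1) ^ (1 / 2 + ε))
    {θ : ℝ} (hθ : θ < β) : ¬ ∃ G : ℂ → ℂ, DifferentiableOn ℂ G {s | θ < s.re} ∧
      ∀ s : ℂ, 3 / 2 < s.re → G s = LSeries (fun n => a n * (cm ω n : ℂ)) s := by
  classical
  rintro ⟨G, hG, hG'⟩
  have hm0 : (0 : ℝ) ≤ m := Nat.cast_nonneg m
  have hM : (0 : ℝ) < 2 * m + 1 := by linarith
  -- the random part
  let r : ℕ → ℂ := fun n => if n.Prime then a n * ((cm ω n - dk a β n : ℝ) : ℂ) / ((2 * m + 1 : ℝ) : ℂ) else 0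
  have hr1 : ∀ n, ‖r n‖ ≤ 1 := by
    intro n
    show ‖if n.Prime then a n * ((cm ω n - dk a β n : ℝ) : ℂ) / ((2 * m + 1 : ℝ) : ℂ) else 0‖ ≤ 1
    split_ifs with hn
    · rw [norm_div, norm_mul, Complex.norm_real, Complex.norm_real, Real.norm_eq_abs, Real.norm_eq_abs,
        abs_of_pos hM, div_le_one hM]
      have h1 := a_norm hE hn
      have h2 : |cm ω n - dk a β n| ≤ 2 := by
        have e1 := abs_sub (cm ω n) (dk a β n)
        rw [abs_cm] at e1
        have e2 := abs_dk_le a hβ1 hn.one_le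
        linarith
      calc ‖a n‖ * |cm ω n - dk a β n| ≤ m * 2 := mul_le_mul h1 h2 (abs_nonneg _) hm0
        _ ≤ _ := by linarith
    · simp
  have hr2 : ∀ ε : ℝ, 0 < ε → ∃ C : ℝ, ∀ x : ℕ, 1 ≤ x → ‖∑ n ∈ Icc 1 x, r n‖ ≤ C * (x : ℝ) ^ (1 / 2 + ε) := by
    intro ε hε
    obtain ⟨C', hC'⟩ := hdev ε hε
    have hC0 : 0 ≤ C' := by
      have h := (norm_nonneg _).trans (hC' 0)
      simpa using h
    refine ⟨C' * 3 ^ (1 / 2 + ε), fun x hx => ?_⟩
    have e1 : ∑ n ∈ Icc 1 x, r n =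
        (∑ k ∈ Finset.range (Nat.count Nat.Prime (x + 1)),
          a (pr k) * ((sg ω k - dk a β (pr k) : ℝ) : ℂ)) / ((2 * m + 1 : ℝ) : ℂ) := by
      have e2 := csum_primes_range (fun n => a n * ((cm ω n - dk a β n : ℝ) : ℂ)) (x + 1)
      simp only [cm_pr] at e2
      rw [← e2, sum_div, sum_filter]
      have e3 : Finset.range (x + 1) = insert 0 (Icc 1 x) := by
        ext n
        simp only [Finset.mem_range, Finset.mem_insert, Finset.mem_Icc]
        omega
      rw [e3, sum_insert (by simp), if_neg (by norm_num), zero_add]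
    rw [e1, norm_div, Complex.norm_real, Real.norm_eq_abs, abs_of_pos hM]
    refine (div_le_self (norm_nonneg _) (by linarith)).trans ((hC' _).trans ?_)
    rw [mul_assoc]
    refine mul_le_mul_of_nonneg_left ?_ hC0
    rw [← Real.mul_rpow (by norm_num) (Nat.cast_nonneg _)]
    refine Real.rpow_le_rpow (by positivity) ?_ (by positivity)
    have h1 : Nat.count Nat.Prime (x + 1) ≤ x + 1 := Nat.count_le _
    have h2 : Nat.count Nat.Prime (x + 1) + 1 ≤ 3 * x := by omega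
    exact_mod_cast h2
  obtain ⟨R, hR, hR'⟩ := Pool.Agent.Q247.RZ.t_AN r (1 / 2) (by norm_num) (by norm_num) hr1 hr2
  -- the mean
  let q : ℕ → ℂ := fun n => if n.Prime then a n * (dk a β n : ℂ) else 0
  have hq1 : ∀ n : ℕ, n ≠ 0 → ‖q n‖ ≤ m * (n : ℝ) ^ (β - 1) := by
    intro n hn
    show ‖if n.Prime then a n * (dk a β n : ℂ) else 0‖ ≤ _
    split_ifs with hp
    · rw [norm_mul, Complex.norm_real, Real.norm_eq_abs, abs_dk]
      exact mul_le_mul_of_nonneg_right (a_norm hE hp) (by positivity)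
    · rw [norm_zero]
      positivity
  have habs : LSeries.abscissaOfAbsConv q ≤ (β : EReal) := by
    have h1 := LSeries.abscissaOfAbsConv_le_of_le_const_mul_rpow (f := q) (x := β - 1) ⟨m, hq1⟩
    refine h1.trans (le_of_eq ?_)
    norm_cast
    ring_nf
  have hQd : DifferentiableOn ℂ (LSeries q) {s | β < s.re} := by
    refine (LSeries_differentiableOn q).mono fun s hs => ?_
    have h1 : β < s.re := hs
    exact lt_of_le_of_lt habs (by exact_mod_cast h1)
  have hQs : ∀ s : ℂ, β < s.re → LSeriesSummable q s := fun s hs =>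
    LSeriesSummable_of_abscissaOfAbsConv_lt_re (lt_of_le_of_lt habs (by exact_mod_cast hs))
  set c : ℕ → Fin m → ℂ := fun p j => α p j * (cm ω p : ℂ) with hc
  have hc1 : ∀ p j, ‖c p j‖ ≤ 1 := fun p j => by
    show ‖α p j * (cm ω p : ℂ)‖ ≤ 1
    rw [norm_mul, Complex.norm_real, Real.norm_eq_abs, abs_cm, mul_one]
    exact hE.bd p j
  set S : ℂ → ℂ := fun s => HH c s + ((2 * m + 1 : ℝ) : ℂ) * R s with hS
  have hSd : DifferentiableOn ℂ S {s | 1 / 2 < s.re} := (HH_diff hc1).add (hR.const_mul _)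
  -- the formula for `Re s > 3/2`
  have hF : ∀ s : ℂ, 3 / 2 < s.re → G s = Complex.exp (S s + LSeries q s) := by
    intro s hs
    rw [hG' s hs, euler hE hC ω hs, hS]
    show _ = Complex.exp (HH c s + ((2 * m + 1 : ℝ) : ℂ) * R s + LSeries q s)
    congr 1
    rw [add_assoc]
    congr 1
    have hMc : ((2 * m + 1 : ℝ) : ℂ) ≠ 0 := by exact_mod_cast hM.ne'
    have s1 : Summable fun p : Nat.Primes => ((p : ℕ) : ℝ) ^ (-s.re) :=
      Nat.Primes.summable_rpow.2 (by linarith)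
    rw [hR' s (by linarith)]
    show _ = ((2 * m + 1 : ℝ) : ℂ) * LSeries (fun n => if n.Prime then a n * ((cm ω n - dk a β n : ℝ) : ℂ) /
      ((2 * m + 1 : ℝ) : ℂ) else 0) s + LSeries (fun n => if n.Prime then a n * (dk a β n : ℂ) else 0) s
    have sA : Summable fun p : Nat.Primes => ((2 * m + 1 : ℝ) : ℂ) * (a p * ((cm ω p - dk a β p : ℝ) : ℂ) /
        ((2 * m + 1 : ℝ) : ℂ) * ((p : ℕ) : ℂ) ^ (-s)) := by
      have s2 : Summable fun p : Nat.Primes => ((m : ℝ) * 2) * ((p : ℕ) : ℝ) ^ (-s.re) := s1.mul_left _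
      refine Summable.of_norm_bounded s2 fun p => ?_
      have e0 : ((2 * m + 1 : ℝ) : ℂ) * (a p * ((cm ω p - dk a β p : ℝ) : ℂ) / ((2 * m + 1 : ℝ) : ℂ) *
          ((p : ℕ) : ℂ) ^ (-s)) = a p * ((cm ω p - dk a β p : ℝ) : ℂ) * ((p : ℕ) : ℂ) ^ (-s) := by
        field_simp
      rw [e0, norm_mul, norm_mul, Complex.norm_natCast_cpow_of_pos p.2.pos, Complex.neg_re, Complex.norm_real,
        Real.norm_eq_abs]
      refine mul_le_mul_of_nonneg_right ?_ (by positivity)
      refine mul_le_mul (a_norm hE p.2) ?_ (abs_nonneg _) hm0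
      have e1 := abs_sub (cm ω p) (dk a β p)
      rw [abs_cm] at e1
      have e2 := abs_dk_le a hβ1 p.2.one_le
      linarith
    have sB : Summable fun p : Nat.Primes => a p * (dk a β p : ℂ) * ((p : ℕ) : ℂ) ^ (-s) := by
      have s2 : Summable fun p : Nat.Primes => ((m : ℝ) * 1) * ((p : ℕ) : ℝ) ^ (-s.re) := s1.mul_left _
      refine Summable.of_norm_bounded s2 fun p => ?_
      rw [norm_mul, norm_mul, Complex.norm_natCast_cpow_of_pos p.2.pos, Complex.neg_re, Complex.norm_real,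
        Real.norm_eq_abs]
      refine mul_le_mul_of_nonneg_right ?_ (by positivity)
      exact mul_le_mul (a_norm hE p.2) (abs_dk_le a hβ1 p.2.one_le) (abs_nonneg _) hm0
    rw [lser_primes, lser_primes, ← tsum_mul_left, ← sA.tsum_add sB]
    refine tsum_congr fun p => ?_
    field_simp
    push_cast
    ring
  -- the identity theorem
  have hU : IsOpen {s : ℂ | β < s.re} := isOpen_lt continuous_const Complex.continuous_re
  have hUc : IsPreconnected {s : ℂ | β < s.re} := (convex_halfSpace_re_gt β).isPreconnected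
  have hEd : DifferentiableOn ℂ (fun s => Complex.exp (S s + LSeries q s)) {s : ℂ | β < s.re} := by
    refine DifferentiableOn.cexp ((hSd.mono fun s hs => ?_).add hQd)
    have h1 : β < s.re := hs
    show 1 / 2 < s.re
    linarith
  have hGd : DifferentiableOn ℂ G {s : ℂ | β < s.re} := hG.mono fun s hs => by
    have h1 : β < s.re := hs
    show θ < s.re
    linarith
  have hEq : Set.EqOn G (fun s => Complex.exp (S s + LSeries q s)) {s : ℂ | β < s.re} := by
    refine AnalyticOnNhd.eqOn_of_preconnected_of_eventuallyEq (hGd.analyticOnNhd hU)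
      (hEd.analyticOnNhd hU) hUc (z₀ := 2) (by
        show β < (2 : ℂ).re
        simp only [Complex.re_ofNat]
        linarith) ?_
    have h1 : {s : ℂ | 3 / 2 < s.re} ∈ 𝓝 (2 : ℂ) :=
      (isOpen_lt continuous_const Complex.continuous_re).mem_nhds (by
        show (3 / 2 : ℝ) < (2 : ℂ).re
        simp only [Complex.re_ofNat]
        norm_num)
    filter_upwards [h1] with s hs
    exact hF s hs
  -- the limit
  have hc' : Tendsto (fun x : ℝ => (x : ℂ)) (𝓝[>] β) (𝓝 (β : ℂ)) :=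
    (Complex.continuous_ofReal.tendsto β).mono_left nhdsWithin_le_nhds
  have hGc : ContinuousAt G (β : ℂ) :=
    (hG.differentiableAt ((isOpen_lt continuous_const Complex.continuous_re).mem_nhds (by
      show θ < (β : ℂ).re
      simpa using hθ))).continuousAt
  have hSc : ContinuousAt S (β : ℂ) :=
    (hSd.differentiableAt ((isOpen_lt continuous_const Complex.continuous_re).mem_nhds (by
      show 1 / 2 < (β : ℂ).re
      simpa using hβ))).continuousAt
  have l1 : Tendsto (fun x : ℝ => ‖G x‖) (𝓝[>] β) (𝓝 ‖G β‖) := (hGc.tendsto.comp hc').norm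
  have l2 : Tendsto (fun x : ℝ => (S x).re) (𝓝[>] β) (𝓝 (S β).re) :=
    (Complex.continuous_re.tendsto _).comp (hSc.tendsto.comp hc')
  set B : ℝ := (‖G β‖ + 1) + (1 - (S β).re) with hB
  -- a finite set of primes
  obtain ⟨P, hP⟩ : ∃ P : Finset Nat.Primes, B < ∑ p ∈ P, |(a p).re| / ((p : ℕ) : ℝ) := by
    by_contra hcon
    push Not at hcon
    exact hdiv (summable_of_sum_le (fun p => by positivity) hcon)
  have hcont : Tendsto (fun x : ℝ => ∑ p ∈ P, |(a p).re| * ((p : ℕ) : ℝ) ^ (β - 1 - x)) (𝓝[>] β)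
      (𝓝 (∑ p ∈ P, |(a p).re| / ((p : ℕ) : ℝ))) := by
    refine tendsto_finsetSum _ fun p _ => ?_
    have hp0 : (0 : ℝ) < ((p : ℕ) : ℝ) := by exact_mod_cast p.2.pos
    have h1 : Tendsto (fun x : ℝ => ((p : ℕ) : ℝ) ^ (β - 1 - x)) (𝓝[>] β) (𝓝 (((p : ℕ) : ℝ) ^ (β - 1 - β))) := by
      refine Tendsto.mono_left ?_ nhdsWithin_le_nhds
      exact ((Real.continuous_const_rpow hp0.ne').comp (continuous_const.sub continuous_id)).tendsto β
    have h2 : |(a p).re| / ((p : ℕ) : ℝ) = |(a p).re| * ((p : ℕ) : ℝ) ^ (β - 1 - β) := by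
      rw [show β - 1 - β = -1 by ring, Real.rpow_neg_one, div_eq_mul_inv]
    rw [h2]
    exact h1.const_mul _
  have hQre : ∀ x : ℝ, β < x → ∑ p ∈ P, |(a p).re| * ((p : ℕ) : ℝ) ^ (β - 1 - x) ≤ (LSeries q x).re := by
    intro x hx
    have hsumm : Summable fun p : Nat.Primes => a p * (dk a β p : ℂ) * ((p : ℕ) : ℂ) ^ (-(x : ℂ)) := by
      have h1 : Summable fun p : Nat.Primes => (m : ℝ) * ((p : ℕ) : ℝ) ^ (β - 1 - x) :=
        (Nat.Primes.summable_rpow.2 (by linarith)).mul_left _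
      refine Summable.of_norm_bounded h1 fun p => ?_
      have hp0 : (0 : ℝ) < ((p : ℕ) : ℝ) := by exact_mod_cast p.2.pos
      rw [norm_mul, norm_mul, Complex.norm_natCast_cpow_of_pos p.2.pos, Complex.neg_re, Complex.ofReal_re,
        Complex.norm_real, Real.norm_eq_abs, abs_dk, mul_assoc, ← Real.rpow_add hp0, ← sub_eq_add_neg]
      exact mul_le_mul_of_nonneg_right (a_norm hE p.2) (by positivity)
    have hval : (LSeries q x).re = ∑' p : Nat.Primes, |(a p).re| * ((p : ℕ) : ℝ) ^ (β - 1 - x) := by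
      show (LSeries (fun n => if n.Prime then a n * (dk a β n : ℂ) else 0) x).re = _
      rw [lser_primes, Complex.re_tsum hsumm]
      refine tsum_congr fun p => ?_
      have hp0 : (0 : ℝ) < ((p : ℕ) : ℝ) := by exact_mod_cast p.2.pos
      have e1 : ((p : ℕ) : ℂ) ^ (-(x : ℂ)) = ((((p : ℕ) : ℝ) ^ (-x) : ℝ) : ℂ) := by
        rw [Complex.ofReal_cpow hp0.le]
        push_cast
        rfl
      rw [e1, mul_assoc, ← Complex.ofReal_mul, Complex.re_mul_ofReal]
      unfold dk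
      have e2 : ((p : ℕ) : ℝ) ^ (β - 1 - x) = ((p : ℕ) : ℝ) ^ (β - 1) * ((p : ℕ) : ℝ) ^ (-x) := by
        rw [← Real.rpow_add hp0, sub_eq_add_neg (β - 1) x]
      rw [e2]
      split_ifs with h
      · rw [abs_of_nonneg h]
        ring
      · rw [abs_of_neg (not_le.1 h)]
        ring
    rw [hval]
    refine Summable.sum_le_tsum P (fun p _ => by positivity) ?_
    have h2 := hsumm.norm
    refine Summable.of_nonneg_of_le (fun p => by positivity) (fun p => ?_) h2
    have hp0 : (0 : ℝ) < ((p : ℕ) : ℝ) := by exact_mod_cast p.2.pos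
    rw [norm_mul, norm_mul, Complex.norm_natCast_cpow_of_pos p.2.pos, Complex.neg_re, Complex.ofReal_re,
      Complex.norm_real, Real.norm_eq_abs, abs_dk, mul_assoc, ← Real.rpow_add hp0, ← sub_eq_add_neg]
    exact mul_le_mul_of_nonneg_right (Complex.abs_re_le_norm _) (by positivity)
  have f1 : ∀ᶠ x : ℝ in 𝓝[>] β, ‖G x‖ < ‖G β‖ + 1 := l1.eventually (gt_mem_nhds (by linarith))
  have f2 : ∀ᶠ x : ℝ in 𝓝[>] β, (S β).re - 1 < (S x).re := l2.eventually (lt_mem_nhds (by linarith))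
  have f3 : ∀ᶠ x : ℝ in 𝓝[>] β, B < ∑ p ∈ P, |(a p).re| * ((p : ℕ) : ℝ) ^ (β - 1 - x) :=
    hcont.eventually (lt_mem_nhds hP)
  obtain ⟨x, hx1, hx2, hx3, hx4⟩ := (f1.and (f2.and (f3.and self_mem_nhdsWithin))).exists
  have hx4' : β < x := hx4
  have h5 := hEq (show β < ((x : ℝ) : ℂ).re by simpa using hx4')
  simp only at h5
  rw [h5, Complex.norm_exp, Complex.add_re] at hx1
  have h6 := hQre x hx4'
  have h7 : ‖G β‖ + 1 ≤ (S x).re + (LSeries q x).re := by
    rw [hB] at hx3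
    linarith
  have h8 := Real.add_one_le_exp ((S x).re + (LSeries q x).re)
  linarith

end Pool.Agent.Q255.SV
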