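import Pool.Agent.Q255.SV.Gen2
import Pool.Agent.Q255.EP.Fin
import Pool.Agent.Q68.EP.Law

/-!
# Laws of information `x^δ` for which the twisted sums of a given Euler product are not `O(N^(δ/2-η))`
-/

set_option autoImplicit false

namespace Pool.Agent.Q255.SV

open Filter Topology MeasureTheory ProbabilityTheory Finset
open Pool.Agent.Q255.IC Pool.Agent.Q255.IR Pool.Agent.Q255.EP Pool.Agent.Q13.EP
open Pool.Agent.Q190.IR.Tilt Pool.Agent.Q68.EP

theorem low_gen {m : ℕ} {α : ℕ → Fin m → ℂ} {a : ℕ → ℂ} (hE : Eul α a) {C : ℝ}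
    (hC : ∀ n : ℕ, 1 ≤ n → ‖a n‖ ≤ C * (n : ℝ) ^ (1 / 4 : ℝ))
    (hdiv : ¬ Summable fun p : Nat.Primes => |(a p).re| / ((p : ℕ) : ℝ))
    {δ : ℝ} (hδ0 : 0 < δ) (hδ1 : δ < 1) (ω : ℕ → Bool)
    (hdev : ∀ ε : ℝ, 0 < ε → ∃ C : ℝ, ∀ n : ℕ,
      ‖∑ k ∈ Finset.range n, a (pr k) * ((sg ω k - dk a ((1 + δ) / 2) (pr k) : ℝ) : ℂ)‖ ≤
        C * ((n : ℝ) + 1) ^ (1 / 2 + ε))
    (t η : ℝ) (hη : 0 < η) : ¬ ∃ C : ℝ, ∀ N : ℕ, 1 ≤ N →
      ‖∑ n ∈ Icc 1 N, a n * (cm ω n : ℂ) * (n : ℂ) ^ (-(1 / 2 : ℂ) - t * Complex.I)‖ ≤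
        C * (N : ℝ) ^ (δ / 2 - η) := by
  rintro ⟨C₁, hC₁⟩
  have hC0 : 0 ≤ C := by
    have := (norm_nonneg _).trans (hC 1 le_rfl)
    simpa using this
  set κ : ℝ := max (δ / 2 - η) (δ / 4) with hκ
  have hκ0 : 0 ≤ κ := le_trans (by positivity) (le_max_right _ _)
  have hκ1 : κ < δ / 2 := max_lt (by linarith) (by linarith)
  set K : ℝ := C + 1 with hK
  have hK0 : 0 < K := by rw [hK]; linarith
  have hKc : (K : ℂ) ≠ 0 := by exact_mod_cast hK0.ne'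
  let b : ℕ → ℂ := fun n => if n = 0 then 0 else
    a n * (cm ω n : ℂ) * (n : ℂ) ^ (-(1 / 2 : ℂ) - t * Complex.I) / (K : ℂ)
  have hb : ∀ n, ‖b n‖ ≤ 1 := by
    intro n
    show ‖if n = 0 then (0 : ℂ) else
      a n * (cm ω n : ℂ) * (n : ℂ) ^ (-(1 / 2 : ℂ) - t * Complex.I) / (K : ℂ)‖ ≤ 1
    split_ifs with hn
    · simp
    · have hn1 : 1 ≤ n := Nat.one_le_iff_ne_zero.2 hn
      have hnR : (1 : ℝ) ≤ n := by exact_mod_cast hn1
      have hn0 : (0 : ℝ) < n := by linarith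
      rw [norm_div, norm_mul, norm_mul, Complex.norm_real, Complex.norm_real, Real.norm_eq_abs,
        Real.norm_eq_abs, abs_cm, mul_one, abs_of_pos hK0, Complex.norm_natCast_cpow_of_pos hn1,
        div_le_one hK0]
      have e1 : (-(1 / 2 : ℂ) - t * Complex.I).re = -(1 / 2) := by simp
      rw [e1]
      calc ‖a n‖ * (n : ℝ) ^ (-(1 / 2) : ℝ) ≤ C * (n : ℝ) ^ (1 / 4 : ℝ) * (n : ℝ) ^ (-(1 / 2) : ℝ) :=
            mul_le_mul_of_nonneg_right (hC n hn1) (by positivity)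
        _ = C * (n : ℝ) ^ (1 / 4 + -(1 / 2) : ℝ) := by rw [mul_assoc, ← Real.rpow_add hn0]
        _ ≤ C * 1 := mul_le_mul_of_nonneg_left
            (Real.rpow_le_one_of_one_le_of_nonpos hnR (by norm_num)) hC0
        _ ≤ K := by rw [hK]; linarith
  have hsum : ∀ ε : ℝ, 0 < ε → ∃ C' : ℝ, ∀ x : ℕ, 1 ≤ x → ‖∑ n ∈ Icc 1 x, b n‖ ≤ C' * (x : ℝ) ^ (κ + ε) := by
    intro ε hε
    refine ⟨|C₁|, fun x hx => ?_⟩
    have hxR : (1 : ℝ) ≤ x := by exact_mod_cast hx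
    have h1 : ∑ n ∈ Icc 1 x, b n =
        (∑ n ∈ Icc 1 x, a n * (cm ω n : ℂ) * (n : ℂ) ^ (-(1 / 2 : ℂ) - t * Complex.I)) / (K : ℂ) := by
      rw [sum_div]
      refine sum_congr rfl fun n hn => ?_
      rw [Finset.mem_Icc] at hn
      show (if n = 0 then (0 : ℂ) else _) = _
      rw [if_neg (by omega)]
    rw [h1, norm_div, Complex.norm_real, Real.norm_eq_abs, abs_of_pos hK0]
    refine (div_le_self (norm_nonneg _) (by rw [hK]; linarith)).trans ((hC₁ x hx).trans ?_)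
    refine mul_le_mul (le_abs_self _) ?_ (by positivity) (abs_nonneg _)
    exact Real.rpow_le_rpow_of_exponent_le hxR (by
      have := le_max_left (δ / 2 - η) (δ / 4)
      rw [← hκ] at this
      linarith)
  obtain ⟨G, hG, hG'⟩ := Pool.Agent.Q247.RZ.t_AN b κ hκ0 (by linarith) hb hsum
  refine pole_gen hE hC hdiv (β := (1 + δ) / 2) (by linarith) (by linarith) ω hdev (θ := κ + 1 / 2) (by linarith)
    ⟨fun s => (K : ℂ) * G (s - ((1 / 2 : ℂ) + t * Complex.I)), ?_, ?_⟩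
  · refine DifferentiableOn.const_mul (hG.comp (by fun_prop) ?_) _
    intro s hs
    have h1 : κ + 1 / 2 < s.re := hs
    show κ < (s - ((1 / 2 : ℂ) + t * Complex.I)).re
    have h2 : (s - ((1 / 2 : ℂ) + t * Complex.I)).re = s.re - 1 / 2 := by simp
    rw [h2]
    linarith
  · intro s hs
    show (K : ℂ) * G (s - ((1 / 2 : ℂ) + t * Complex.I)) = _
    have h2 : (s - ((1 / 2 : ℂ) + t * Complex.I)).re = s.re - 1 / 2 := by simp
    rw [hG' _ (by rw [h2]; linarith)]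
    unfold LSeries
    rw [← tsum_mul_left]
    refine tsum_congr fun n => ?_
    rcases Nat.eq_zero_or_pos n with h | h
    · subst h
      simp
    · have hn0 : n ≠ 0 := by omega
      have hn0' : (n : ℂ) ≠ 0 := by exact_mod_cast hn0
      rw [LSeries.term_of_ne_zero hn0, LSeries.term_of_ne_zero hn0]
      show (K : ℂ) * ((if n = 0 then (0 : ℂ) else
        a n * (cm ω n : ℂ) * (n : ℂ) ^ (-(1 / 2 : ℂ) - t * Complex.I) / (K : ℂ)) / _) = _
      obtain ⟨w, hw⟩ : ∃ w : ℂ, w = (1 / 2 : ℂ) + t * Complex.I := ⟨_, rfl⟩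
      rw [if_neg hn0, show -(1 / 2 : ℂ) - t * Complex.I = -w by rw [hw]; ring, ← hw, Complex.cpow_neg,
        Complex.cpow_sub _ _ hn0']
      have h1 : (n : ℂ) ^ w ≠ 0 := by
        rw [Ne, Complex.cpow_eq_zero_iff]
        tauto
      have h2 : (n : ℂ) ^ s ≠ 0 := by
        rw [Ne, Complex.cpow_eq_zero_iff]
        tauto
      field_simp

theorem V_le {b : ℕ → ℝ} (hb : ∀ k, |b k| ≤ 1) (n : ℕ) : V b n ≤ n := by
  unfold V
  refine (sum_le_sum fun k _ => (sq_le_one_iff_abs_le_one _).2 (hb k)).trans (le_of_eq ?_)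
  simp

theorem dev_half' (b : ℕ → ℝ) (hb : ∀ k, |b k| ≤ 1) (u : ℕ → ℝ) (h : ∀ k, |u k| ≤ 1) (c : ℝ) (hc : |c| = 1)
    {ε : ℝ} (hε : 0 < ε) :
    ∀ᵐ ω ∂(Measure.infinitePi (fun k : ℕ => one (u k))),
      ∀ᶠ n : ℕ in atTop, ∑ k ∈ Finset.range n, xi b u c k ω < (n : ℝ) ^ (1 / 2 + ε) := by
  have := fun k => one_prob (h k)
  have key : ∀ᵐ ω ∂(Measure.infinitePi (fun k : ℕ => one (u k))), ∀ᶠ j : ℕ in atTop,
      ω ∉ {ω : ℕ → Bool | ∃ z ≤ 2 ^ (j + 1), ((2 : ℝ) ^ j) ^ (1 / 2 + ε) ≤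
        ∑ k ∈ Finset.range z, xi b u c k ω} := by
    apply ae_eventually_notMem
    have hb' : ∀ j : ℕ, (Measure.infinitePi (fun k : ℕ => one (u k)))
        {ω : ℕ → Bool | ∃ z ≤ 2 ^ (j + 1), ((2 : ℝ) ^ j) ^ (1 / 2 + ε) ≤
          ∑ k ∈ Finset.range z, xi b u c k ω} ≤
        ENNReal.ofReal (2 * (((2 : ℝ) ^ (2 * ε))⁻¹) ^ j) := by
      intro j
      rw [← ofReal_measureReal]
      apply ENNReal.ofReal_le_ofReal
      refine (maxi b u h c hc (2 ^ (j + 1)) (by positivity)).trans ?_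
      refine (div_le_div_of_nonneg_right (V_le hb _) (sq_nonneg _)).trans ?_
      have h1 : (((2 : ℝ) ^ j) ^ (1 / 2 + ε)) ^ 2 = (2 : ℝ) ^ j * ((2 : ℝ) ^ (2 * ε)) ^ j := by
        have hp : (0 : ℝ) < (2 : ℝ) ^ j := by positivity
        rw [← Real.rpow_natCast (((2 : ℝ) ^ j) ^ (1 / 2 + ε)) 2, ← Real.rpow_mul hp.le]
        have e1 : (1 / 2 + ε) * ((2 : ℕ) : ℝ) = 1 + 2 * ε := by
          push_cast
          ring
        rw [e1, Real.rpow_add hp, Real.rpow_one]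
        congr 1
        rw [← Real.rpow_natCast (2 : ℝ) j, ← Real.rpow_natCast ((2 : ℝ) ^ (2 * ε)) j,
          ← Real.rpow_mul (by norm_num), ← Real.rpow_mul (by norm_num)]
        congr 1
        ring
      rw [h1, inv_pow]
      push_cast
      rw [pow_succ]
      have hp : (0 : ℝ) < (2 : ℝ) ^ j := by positivity
      have hq : (0 : ℝ) < ((2 : ℝ) ^ (2 * ε)) ^ j := by positivity
      apply le_of_eq
      field_simp
    refine ne_top_of_le_ne_top ?_ (ENNReal.tsum_le_tsum hb')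
    have hs : Summable (fun j : ℕ => 2 * (((2 : ℝ) ^ (2 * ε))⁻¹) ^ j) := by
      refine (summable_geometric_of_lt_one (by positivity) ?_).mul_left _
      exact inv_lt_one_of_one_lt₀ (Real.one_lt_rpow (by norm_num) (by positivity))
    exact hs.tsum_ofReal_ne_top
  filter_upwards [key] with ω hω
  obtain ⟨J, hJ⟩ := eventually_atTop.1 hω
  filter_upwards [eventually_ge_atTop (2 ^ J)] with n hn
  have hn1 : 1 ≤ n := le_trans Nat.one_le_two_pow hn
  obtain ⟨j, hj1, hj2⟩ := exists_nat_pow_near (show (1 : ℝ) ≤ n by exact_mod_cast hn1)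
    (by norm_num : (1 : ℝ) < 2)
  have hjJ : J ≤ j := by
    have : (2 : ℝ) ^ J < 2 ^ (j + 1) := lt_of_le_of_lt (by exact_mod_cast hn) hj2
    have := (pow_lt_pow_iff_right₀ (by norm_num : (1 : ℝ) < 2)).1 this
    omega
  have h1 := hJ j hjJ
  push Not at h1
  have h2 := h1 n (by
    have : (n : ℝ) ≤ ((2 ^ (j + 1) : ℕ) : ℝ) := by
      push_cast
      exact hj2.le
    exact_mod_cast this)
  exact lt_of_lt_of_le h2 (Real.rpow_le_rpow (by positivity) hj1 (by positivity))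

/-- independent signs with given means -/
theorem law_w (d : ℕ → ℝ) (hd : ∀ k, |d k| ≤ 1) : ∃ ν : Measure (ℕ → Bool), IsProbabilityMeasure ν ∧
    (∀ n, D ν n ≤ ∑ k ∈ Finset.range n, d k ^ 2) ∧
    ∀ b : ℕ → ℝ, (∀ k, |b k| ≤ 1) → ∀ᵐ ω ∂ν, ∀ ε : ℝ, 0 < ε → ∃ C : ℝ, ∀ n : ℕ,
      |∑ k ∈ Finset.range n, b k * (sg ω k - d k)| ≤ C * ((n : ℝ) + 1) ^ (1 / 2 + ε) := by
  obtain ⟨u, hu⟩ : ∃ u : ℕ → ℝ, ∀ k, u k = -d k := ⟨fun k => -d k, fun _ => rfl⟩
  have hu1 : ∀ k, |u k| ≤ 1 := fun k => by rw [hu, abs_neg]; exact hd k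
  have := fun k => one_prob (hu1 k)
  refine ⟨Measure.infinitePi (fun k : ℕ => one (u k)), inferInstance, ?_, ?_⟩
  · intro n
    unfold D entropy
    have e1 : ∑ s : Fin n → Bool, Real.negMulLog ((Measure.infinitePi (fun k : ℕ => one (u k))).real
        {ω | ∀ k : Fin n, ω k = s k}) = ∑ k : Fin n, Real.binEntropy ((1 + u k) / 2) := by
      rw [← ent_wgt n (fun k : Fin n => u k)]
      exact Finset.sum_congr rfl (fun s _ => by rw [law hu1])
    rw [e1]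
    have e2 : (n : ℝ) * Real.log 2 = ∑ _k : Fin n, Real.log 2 := by
      rw [Finset.sum_const, Finset.card_univ, Fintype.card_fin, nsmul_eq_mul]
    rw [e2, ← Finset.sum_sub_distrib]
    have hfin : ∑ k : Fin n, (Real.log 2 - Real.binEntropy ((1 + u (k : ℕ)) / 2)) ≤
        ∑ k : Fin n, d (k : ℕ) ^ 2 := Finset.sum_le_sum fun k _ => by
      have := binEnt2 (hu1 (k : ℕ))
      rwa [hu, neg_sq, ← hu] at this
    refine hfin.trans (le_of_eq ?_)
    exact Fin.sum_univ_eq_sum_range (fun k => d k ^ 2) n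
  · intro b hb
    have hk : ∀ q : ℕ, (0 : ℝ) < 1 / ((q : ℝ) + 1) := fun q => by positivity
    have h1 : ∀ᵐ ω ∂(Measure.infinitePi (fun k : ℕ => one (u k))), ∀ q : ℕ,
        ∀ᶠ n : ℕ in atTop, ∑ k ∈ Finset.range n, xi b u 1 k ω < (n : ℝ) ^ (1 / 2 + 1 / ((q : ℝ) + 1)) :=
      ae_all_iff.2 fun q => dev_half' b hb u hu1 1 (by norm_num) (hk q)
    have h2 : ∀ᵐ ω ∂(Measure.infinitePi (fun k : ℕ => one (u k))), ∀ q : ℕ,
        ∀ᶠ n : ℕ in atTop, ∑ k ∈ Finset.range n, xi b u (-1) k ω < (n : ℝ) ^ (1 / 2 + 1 / ((q : ℝ) + 1)) :=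
      ae_all_iff.2 fun q => dev_half' b hb u hu1 (-1) (by norm_num) (hk q)
    filter_upwards [h1, h2] with ω h1 h2
    intro ε hε
    obtain ⟨q, hq⟩ := exists_nat_one_div_lt hε
    obtain ⟨N, hN⟩ := eventually_atTop.1 ((h1 q).and (h2 q))
    obtain ⟨M, hM⟩ : ∃ M : ℝ, M = ∑ n ∈ Finset.range N, |∑ k ∈ Finset.range n, b k * (sg ω k - d k)| := ⟨_, rfl⟩
    have hM0 : 0 ≤ M := by rw [hM]; exact Finset.sum_nonneg fun _ _ => abs_nonneg _
    refine ⟨M + 1, fun n => ?_⟩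
    have hn1 : (1 : ℝ) ≤ (n : ℝ) + 1 := by
      have : (0 : ℝ) ≤ n := Nat.cast_nonneg n
      linarith
    have hpow : (1 : ℝ) ≤ ((n : ℝ) + 1) ^ (1 / 2 + ε) := Real.one_le_rpow hn1 (by positivity)
    by_cases hnN : n < N
    · have h3 : |∑ k ∈ Finset.range n, b k * (sg ω k - d k)| ≤ M := by
        rw [hM]
        exact Finset.single_le_sum (f := fun n => |∑ k ∈ Finset.range n, b k * (sg ω k - d k)|)
          (fun _ _ => abs_nonneg _) (Finset.mem_range.2 hnN)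
      nlinarith
    · obtain ⟨h4, h5⟩ := hN n (not_lt.1 hnN)
      have e0 : ∑ k ∈ Finset.range n, xi b u 1 k ω = ∑ k ∈ Finset.range n, b k * (sg ω k - d k) := by
        apply Finset.sum_congr rfl
        intro k _
        unfold xi sg
        rw [hu]
        ring
      have e1 : ∑ k ∈ Finset.range n, xi b u (-1) k ω = -∑ k ∈ Finset.range n, b k * (sg ω k - d k) := by
        rw [← Finset.sum_neg_distrib]
        apply Finset.sum_congr rfl
        intro k _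
        unfold xi sg
        rw [hu]
        ring
      rw [e0] at h4
      rw [e1] at h5
      have h6 : |∑ k ∈ Finset.range n, b k * (sg ω k - d k)| < (n : ℝ) ^ (1 / 2 + 1 / ((q : ℝ) + 1)) :=
        abs_lt.2 ⟨by linarith, h4⟩
      have h7 : (n : ℝ) ^ (1 / 2 + 1 / ((q : ℝ) + 1)) ≤ ((n : ℝ) + 1) ^ (1 / 2 + ε) := by
        refine (Real.rpow_le_rpow (Nat.cast_nonneg n) (by linarith : (n : ℝ) ≤ (n : ℝ) + 1)
          (by have := hk q; linarith)).trans ?_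
        exact Real.rpow_le_rpow_of_exponent_le hn1 (by linarith)
      nlinarith

/-- finite changes -/
theorem cdev_fin {ω ω' : ℕ → Bool} (hfin : {k | ω' k ≠ ω k}.Finite) {a : ℕ → ℂ} {d : ℕ → ℝ} {m : ℝ}
    (hm : 0 ≤ m) (ha : ∀ k, ‖a k‖ ≤ m)
    (h : ∀ ε : ℝ, 0 < ε → ∃ C : ℝ, ∀ n : ℕ,
      ‖∑ k ∈ Finset.range n, a k * ((sg ω k - d k : ℝ) : ℂ)‖ ≤ C * ((n : ℝ) + 1) ^ (1 / 2 + ε)) :
    ∀ ε : ℝ, 0 < ε → ∃ C : ℝ, ∀ n : ℕ,
      ‖∑ k ∈ Finset.range n, a k * ((sg ω' k - d k : ℝ) : ℂ)‖ ≤ C * ((n : ℝ) + 1) ^ (1 / 2 + ε) := by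
  classical
  intro ε hε
  obtain ⟨C, hC⟩ := h ε hε
  refine ⟨C + 2 * m * hfin.toFinset.card, fun n => ?_⟩
  have h1 : ∑ k ∈ Finset.range n, a k * ((sg ω' k - d k : ℝ) : ℂ) =
      ∑ k ∈ Finset.range n, a k * ((sg ω k - d k : ℝ) : ℂ) +
        ∑ k ∈ Finset.range n, a k * ((sg ω' k - sg ω k : ℝ) : ℂ) := by
    rw [← Finset.sum_add_distrib]
    exact Finset.sum_congr rfl fun k _ => by push_cast; ring
  have h2 : ‖∑ k ∈ Finset.range n, a k * ((sg ω' k - sg ω k : ℝ) : ℂ)‖ ≤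
      2 * m * hfin.toFinset.card := by
    have h3 : ∑ k ∈ Finset.range n, a k * ((sg ω' k - sg ω k : ℝ) : ℂ) =
        ∑ k ∈ (Finset.range n).filter (fun k => k ∈ hfin.toFinset), a k * ((sg ω' k - sg ω k : ℝ) : ℂ) := by
      rw [Finset.sum_filter]
      refine Finset.sum_congr rfl fun k _ => ?_
      by_cases hk : k ∈ hfin.toFinset
      · rw [if_pos hk]
      · rw [if_neg hk]
        have : ω' k = ω k := by
          by_contra h4
          exact hk (by simpa using h4)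
        unfold sg
        rw [this, sub_self]
        simp
    rw [h3]
    refine (norm_sum_le _ _).trans ?_
    refine (Finset.sum_le_sum (g := fun _ => m * 2) fun k _ => ?_).trans ?_
    · rw [norm_mul, Complex.norm_real, Real.norm_eq_abs]
      have a1 := abs_sg ω k
      have a2 := abs_sg ω' k
      have a3 := abs_sub (sg ω' k) (sg ω k)
      exact mul_le_mul (ha k) (by linarith) (abs_nonneg _) hm
    · rw [Finset.sum_const, nsmul_eq_mul]
      have : ((Finset.range n).filter (fun k => k ∈ hfin.toFinset)).card ≤ hfin.toFinset.card :=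
        Finset.card_le_card fun k hk => (Finset.mem_filter.1 hk).2
      have h5 : (((Finset.range n).filter (fun k => k ∈ hfin.toFinset)).card : ℝ) ≤
          hfin.toFinset.card := by exact_mod_cast this
      nlinarith
  rw [h1]
  have h3 : (1 : ℝ) ≤ ((n : ℝ) + 1) ^ (1 / 2 + ε) :=
    Real.one_le_rpow (by linarith [Nat.cast_nonneg (α := ℝ) n]) (by positivity)
  have h4 : (0 : ℝ) ≤ 2 * m * hfin.toFinset.card := by positivity
  calc _ ≤ _ := norm_add_le _ _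
    _ ≤ C * ((n : ℝ) + 1) ^ (1 / 2 + ε) + 2 * m * hfin.toFinset.card := add_le_add (hC n) h2
    _ ≤ C * ((n : ℝ) + 1) ^ (1 / 2 + ε) + 2 * m * hfin.toFinset.card * ((n : ℝ) + 1) ^ (1 / 2 + ε) := by
        have h5 := mul_le_mul_of_nonneg_left h3 h4
        linarith
    _ = _ := by ring

/-- **Sharpness for every Euler product.** -/
theorem sharp_gen {m : ℕ} {α : ℕ → Fin m → ℂ} {a : ℕ → ℂ} (hE : Eul α a) {C : ℝ}
    (hC : ∀ n : ℕ, 1 ≤ n → ‖a n‖ ≤ C * (n : ℝ) ^ (1 / 4 : ℝ))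
    (hdiv : ¬ Summable fun p : Nat.Primes => |(a p).re| / ((p : ℕ) : ℝ))
    {δ : ℝ} (hδ0 : 0 < δ) (hδ1 : δ < 1) :
    ∃ ν : Measure (ℕ → Bool), IsProbabilityMeasure ν ∧
      (∀ x : ℕ, D ν (Nat.primeCounting x) ≤ δ⁻¹ * (x : ℝ) ^ δ) ∧
      ∀ᵐ ω ∂ν, ∀ ω' : ℕ → Bool, {k | ω' k ≠ ω k}.Finite → ∀ t η : ℝ, 0 < η → ¬ ∃ C : ℝ, ∀ N : ℕ, 1 ≤ N →
        ‖∑ n ∈ Icc 1 N, a n * (cm ω' n : ℂ) * (n : ℂ) ^ (-(1 / 2 : ℂ) - t * Complex.I)‖ ≤
          C * (N : ℝ) ^ (δ / 2 - η) := by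
  set d : ℕ → ℝ := fun k => dk a ((1 + δ) / 2) (pr k) with hd
  have hd1 : ∀ k, |d k| ≤ 1 := fun k => abs_dk_le a (by linarith) (pr_prime k).one_lt.le
  obtain ⟨ν, hν, hD, hdev⟩ := law_w d hd1
  have hM : (0 : ℝ) < (m : ℝ) + 1 := by positivity
  have han : ∀ k, ‖a (pr k)‖ ≤ m := fun k => a_norm hE (pr_prime k)
  have hb1 : ∀ k, |(a (pr k)).re / ((m : ℝ) + 1)| ≤ 1 := fun k => by
    rw [abs_div, abs_of_pos hM, div_le_one hM]
    linarith [Complex.abs_re_le_norm (a (pr k)), han k]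
  have hb2 : ∀ k, |(a (pr k)).im / ((m : ℝ) + 1)| ≤ 1 := fun k => by
    rw [abs_div, abs_of_pos hM, div_le_one hM]
    linarith [Complex.abs_im_le_norm (a (pr k)), han k]
  refine ⟨ν, hν, fun x => ?_, ?_⟩
  · refine (hD _).trans (le_trans (le_of_eq ?_) (sum_pr_le hδ0 hδ1.le x))
    refine sum_congr rfl fun k _ => ?_
    rw [← sq_abs, hd]
    show |dk a ((1 + δ) / 2) (pr k)| ^ 2 = _
    rw [abs_dk, neg_sq, show (1 + δ) / 2 - 1 = (δ - 1) / 2 by ring]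
  · filter_upwards [hdev _ hb1, hdev _ hb2] with ω h1 h2 ω' hω' t η hη
    refine low_gen hE hC hdiv hδ0 hδ1 ω' ?_ t η hη
    refine cdev_fin (a := fun k => a (pr k)) (d := d) hω' (Nat.cast_nonneg m) han fun ε hε => ?_
    obtain ⟨C1, hC1⟩ := h1 ε hε
    obtain ⟨C2, hC2⟩ := h2 ε hε
    refine ⟨((m : ℝ) + 1) * (C1 + C2), fun n => ?_⟩
    have e1 : ∑ k ∈ Finset.range n, a (pr k) * ((sg ω k - d k : ℝ) : ℂ) =
        ((((m : ℝ) + 1) * ∑ k ∈ Finset.range n, (a (pr k)).re / ((m : ℝ) + 1) * (sg ω k - d k) : ℝ) : ℂ) +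
        ((((m : ℝ) + 1) * ∑ k ∈ Finset.range n, (a (pr k)).im / ((m : ℝ) + 1) * (sg ω k - d k) : ℝ) : ℂ) *
          Complex.I := by
      rw [mul_sum, mul_sum, Complex.ofReal_sum, Complex.ofReal_sum, sum_mul, ← sum_add_distrib]
      refine sum_congr rfl fun k _ => ?_
      have e2 : ((m : ℝ) + 1) * ((a (pr k)).re / ((m : ℝ) + 1) * (sg ω k - d k)) =
          (a (pr k)).re * (sg ω k - d k) := by field_simp
      have e3 : ((m : ℝ) + 1) * ((a (pr k)).im / ((m : ℝ) + 1) * (sg ω k - d k)) =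
          (a (pr k)).im * (sg ω k - d k) := by field_simp
      rw [e2, e3]
      conv_lhs => rw [← Complex.re_add_im (a (pr k))]
      push_cast
      ring
    rw [e1]
    refine (norm_add_le _ _).trans ?_
    rw [norm_mul, Complex.norm_I, mul_one, Complex.norm_real, Complex.norm_real, Real.norm_eq_abs,
      Real.norm_eq_abs, abs_mul, abs_mul, abs_of_pos hM]
    have f1 := mul_le_mul_of_nonneg_left (hC1 n) hM.le
    have f2 := mul_le_mul_of_nonneg_left (hC2 n) hM.le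
    calc _ ≤ _ := add_le_add f1 f2
      _ = _ := by ring

end Pool.Agent.Q255.SV
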