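import Pool.Agent.Q13.EP.LOW

/-!
# A pole at `(1+δ)/2`: the twisted sums on the critical line are not `O(N^(δ/2-η))`
-/

set_option autoImplicit false

namespace Pool.Agent.Q255.SV

open Filter Topology MeasureTheory Finset
open Pool.Agent.Q255.IC Pool.Agent.Q255.IR Pool.Agent.Q255.EP Pool.Agent.Q13.EP

/-- the opposite signs -/
def flip (ω : ℕ → Bool) : ℕ → Bool := fun k => !ω k

theorem sg_flip (ω : ℕ → Bool) (k : ℕ) : sg (flip ω) k = -sg ω k := by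
  unfold flip sg
  rcases h : ω k with _ | _ <;> simp [h]

theorem lam_flip (ω : ℕ → Bool) (n : ℕ) (hn : n ≠ 0) : Pool.Agent.Q120.FZ.lam (SS (flip ω)) n = cm ω n := by
  induction n using Nat.recOnMul with
  | zero => exact absurd rfl hn
  | one => simp [Pool.Agent.Q120.FZ.lam, cm_one]
  | prime p hp => rw [Pool.Agent.Q208.FZ.lam_prime _ hp, sg_SS, sg_flip, neg_neg, cm_prime ω hp]
  | mul m n hm' hn' =>
    have h1 : m ≠ 0 := left_ne_zero_of_mul hn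
    have h2 : n ≠ 0 := right_ne_zero_of_mul hn
    rw [Pool.Agent.Q208.FZ.lam_mul, hm' h1, hn' h2, cm_mul ω h1 h2]

/-- summation by parts, complex -/
theorem cparts (g : ℕ → ℂ) (N : ℕ) (hN : 1 ≤ N) :
    ∑ n ∈ Icc 1 N, g n * (√(n : ℝ) : ℂ) = (∑ n ∈ Icc 1 N, g n) * (√(N : ℝ) : ℂ) -
      ∑ n ∈ Ico 1 N, (∑ m ∈ Icc 1 n, g m) * (((√((n + 1 : ℕ) : ℝ) - √(n : ℝ) : ℝ)) : ℂ) := by
  induction N, hN using Nat.le_induction with
  | base => simp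
  | succ N hN ih =>
    rw [← Finset.insert_Icc_right_eq_Icc_add_one (by omega), sum_insert (by simp), sum_insert (by simp), ih,
      sum_Ico_succ_top hN]
    push_cast
    ring

theorem cparts_bd (g : ℕ → ℂ) (C κ : ℝ) (hC : 0 ≤ C) (hκ : 0 ≤ κ) (N : ℕ) (hN : 1 ≤ N)
    (h : ∀ n : ℕ, 1 ≤ n → ‖∑ m ∈ Icc 1 n, g m‖ ≤ C * (n : ℝ) ^ κ) :
    ‖∑ n ∈ Icc 1 N, g n * (√(n : ℝ) : ℂ)‖ ≤ 2 * C * (N : ℝ) ^ (κ + 1 / 2) := by
  have hN0 : (0 : ℝ) < N := by exact_mod_cast hN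
  rw [cparts g N hN]
  have h1 : ‖(∑ n ∈ Icc 1 N, g n) * (√(N : ℝ) : ℂ)‖ ≤ C * (N : ℝ) ^ κ * √(N : ℝ) := by
    rw [norm_mul, Complex.norm_real, Real.norm_eq_abs, abs_of_nonneg (Real.sqrt_nonneg _)]
    exact mul_le_mul_of_nonneg_right (h N hN) (Real.sqrt_nonneg _)
  have h2 : ‖∑ n ∈ Ico 1 N, (∑ m ∈ Icc 1 n, g m) * (((√((n + 1 : ℕ) : ℝ) - √(n : ℝ) : ℝ)) : ℂ)‖ ≤
      C * (N : ℝ) ^ κ * √(N : ℝ) := by
    refine (norm_sum_le _ _).trans ?_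
    have h3 : ∀ n ∈ Ico 1 N, ‖(∑ m ∈ Icc 1 n, g m) * (((√((n + 1 : ℕ) : ℝ) - √(n : ℝ) : ℝ)) : ℂ)‖ ≤
        C * (N : ℝ) ^ κ * (√((n + 1 : ℕ) : ℝ) - √(n : ℝ)) := by
      intro n hn
      rw [Finset.mem_Ico] at hn
      have s1 : 0 ≤ √((n + 1 : ℕ) : ℝ) - √(n : ℝ) :=
        sub_nonneg.2 (Real.sqrt_le_sqrt (by push_cast; linarith))
      rw [norm_mul, Complex.norm_real, Real.norm_eq_abs, abs_of_nonneg s1]
      refine mul_le_mul_of_nonneg_right ((h n hn.1).trans ?_) s1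
      refine mul_le_mul_of_nonneg_left ?_ hC
      exact Real.rpow_le_rpow (Nat.cast_nonneg _) (by exact_mod_cast hn.2.le) hκ
    refine (sum_le_sum h3).trans ?_
    rw [← mul_sum]
    refine mul_le_mul_of_nonneg_left ?_ (mul_nonneg hC (Real.rpow_nonneg (Nat.cast_nonneg _) _))
    rw [Finset.sum_Ico_sub (fun n : ℕ => √(n : ℝ)) hN]
    simp
  have h3 : (N : ℝ) ^ (κ + 1 / 2) = (N : ℝ) ^ κ * √(N : ℝ) := by
    rw [Real.rpow_add hN0, Real.sqrt_eq_rpow]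
  calc _ ≤ _ := norm_sub_le _ _
    _ ≤ C * (N : ℝ) ^ κ * √(N : ℝ) + C * (N : ℝ) ^ κ * √(N : ℝ) := add_le_add h1 h2
    _ = _ := by rw [h3]; ring

theorem cpow_half {n : ℕ} (hn : 1 ≤ n) (t : ℝ) :
    (n : ℂ) ^ (-(1 / 2 : ℂ) - t * Complex.I) * (√(n : ℝ) : ℂ) = (n : ℂ) ^ (-(t * Complex.I)) := by
  have hn0 : (n : ℂ) ≠ 0 := by exact_mod_cast (by omega : n ≠ 0)
  have h1 : ((√(n : ℝ) : ℝ) : ℂ) = (n : ℂ) ^ (1 / 2 : ℂ) := by
    rw [Real.sqrt_eq_rpow, Complex.ofReal_cpow (Nat.cast_nonneg _)]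
    push_cast
    rfl
  rw [h1, ← Complex.cpow_add _ _ hn0]
  congr 1
  ring

/-- **The lower bound.** -/
theorem low_tw (ω : ℕ → Bool) (δ : ℝ) (hδ0 : 0 < δ) (hδ1 : δ < 1)
    (hdev : ∀ ε : ℝ, 0 < ε → ∃ C : ℝ, ∀ n : ℕ,
      |∑ k ∈ Finset.range n, (sg ω k - (pr k : ℝ) ^ ((δ - 1) / 2))| ≤ C * ((n : ℝ) + 1) ^ (1 / 2 + ε))
    (t η : ℝ) (hη : 0 < η) : ¬ ∃ C : ℝ, ∀ N : ℕ, 1 ≤ N →
      ‖∑ n ∈ Icc 1 N, (cm ω n : ℂ) * (n : ℂ) ^ (-(1 / 2 : ℂ) - t * Complex.I)‖ ≤ C * (N : ℝ) ^ (δ / 2 - η) := by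
  rintro ⟨C, hC⟩
  set κ : ℝ := max (δ / 2 - η) (δ / 4) with hκ
  have hκ0 : 0 ≤ κ := le_trans (by positivity) (le_max_right _ _)
  have hκ1 : κ < δ / 2 := max_lt (by linarith) (by linarith)
  have hC0 : 0 ≤ |C| := abs_nonneg _
  have hC' : ∀ N : ℕ, 1 ≤ N →
      ‖∑ n ∈ Icc 1 N, (cm ω n : ℂ) * (n : ℂ) ^ (-(1 / 2 : ℂ) - t * Complex.I)‖ ≤ |C| * (N : ℝ) ^ κ := by
    intro N hN
    have hN1 : (1 : ℝ) ≤ N := by exact_mod_cast hN
    have g1 : (0 : ℝ) ≤ (N : ℝ) ^ (δ / 2 - η) := by positivity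
    calc _ ≤ C * (N : ℝ) ^ (δ / 2 - η) := hC N hN
      _ ≤ |C| * (N : ℝ) ^ (δ / 2 - η) := mul_le_mul_of_nonneg_right (le_abs_self _) g1
      _ ≤ _ := mul_le_mul_of_nonneg_left (Real.rpow_le_rpow_of_exponent_le hN1 (le_max_left _ _)) hC0
  set θ : ℝ := κ + 1 / 2 with hθ
  have hθβ : θ < (1 + δ) / 2 := by rw [hθ]; linarith
  let a : ℕ → ℂ := fun n => if n = 0 then 0 else (cm ω n : ℂ) * (n : ℂ) ^ (-(t * Complex.I))
  have ha : ∀ n, ‖a n‖ ≤ 1 := by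
    intro n
    show ‖if n = 0 then (0 : ℂ) else (cm ω n : ℂ) * (n : ℂ) ^ (-(t * Complex.I))‖ ≤ 1
    split_ifs with hn
    · simp
    · rw [norm_mul, Complex.norm_real, Real.norm_eq_abs, abs_cm, one_mul,
        Complex.norm_natCast_cpow_of_pos (Nat.pos_of_ne_zero hn)]
      simp
  have hsum : ∀ x : ℕ, 1 ≤ x → ‖∑ n ∈ Icc 1 x, a n‖ ≤ 2 * |C| * (x : ℝ) ^ θ := by
    intro x hx
    have h1 := cparts_bd (fun n => (cm ω n : ℂ) * (n : ℂ) ^ (-(1 / 2 : ℂ) - t * Complex.I)) |C| κ hC0 hκ0 x hx hC'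
    have h2 : ∑ n ∈ Icc 1 x, a n = ∑ n ∈ Icc 1 x,
        (cm ω n : ℂ) * (n : ℂ) ^ (-(1 / 2 : ℂ) - t * Complex.I) * (√(n : ℝ) : ℂ) := by
      refine sum_congr rfl fun n hn => ?_
      rw [Finset.mem_Icc] at hn
      show (if n = 0 then (0 : ℂ) else (cm ω n : ℂ) * (n : ℂ) ^ (-(t * Complex.I))) = _
      rw [if_neg (by omega), mul_assoc, cpow_half hn.1]
    rw [h2]
    exact h1
  obtain ⟨G, hG, hG'⟩ := Pool.Agent.Q247.RZ.t_AN a θ (by rw [hθ]; linarith) (by linarith) ha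
    (fun ε hε => ⟨2 * |C|, fun x hx => (hsum x hx).trans
      (mul_le_mul_of_nonneg_left (Real.rpow_le_rpow_of_exponent_le (by exact_mod_cast hx) (by linarith))
        (by positivity))⟩)
  refine Pool.Agent.Q146.FZ.t_POLE Pool.Agent.Q208.FZ.t_LGP Pool.Agent.Q208.FZ.t_EUL
    Pool.Agent.Q247.RZ.t_AN (SS (flip ω)) ((1 + δ) / 2) θ (by linarith) (by linarith) hθβ
    (block_bound (flip ω) ((1 + δ) / 2) ?_) ⟨fun s => G (s - t * Complex.I), ?_, ?_⟩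
  · intro ε hε
    obtain ⟨C', hC'⟩ := hdev ε hε
    refine ⟨C', fun n => ?_⟩
    have h1 : ∑ k ∈ Finset.range n, (sg (flip ω) k + (pr k : ℝ) ^ ((1 + δ) / 2 - 1)) =
        -∑ k ∈ Finset.range n, (sg ω k - (pr k : ℝ) ^ ((δ - 1) / 2)) := by
      rw [← Finset.sum_neg_distrib]
      refine sum_congr rfl fun k _ => ?_
      rw [sg_flip, show (1 + δ) / 2 - 1 = (δ - 1) / 2 by ring]
      ring
    rw [h1, abs_neg]
    exact hC' n
  · refine hG.comp (by fun_prop) ?_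
    intro s hs
    have h1 : θ < s.re := hs
    show θ < (s - t * Complex.I).re
    simpa using h1
  · intro s hs
    show G (s - t * Complex.I) = _
    rw [hG' _ (by simpa using hs)]
    unfold LSeries
    refine tsum_congr fun n => ?_
    rcases Nat.eq_zero_or_pos n with h | h
    · subst h
      simp
    · have hn0 : n ≠ 0 := by omega
      have hn0' : (n : ℂ) ≠ 0 := by exact_mod_cast hn0
      rw [LSeries.term_of_ne_zero hn0, LSeries.term_of_ne_zero hn0, lam_flip ω n hn0]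
      show (if n = 0 then (0 : ℂ) else (cm ω n : ℂ) * (n : ℂ) ^ (-(t * Complex.I))) / _ = _
      rw [if_neg hn0, Complex.cpow_sub _ _ hn0', Complex.cpow_neg]
      have h1 : (n : ℂ) ^ (t * Complex.I) ≠ 0 := by
        rw [Ne, Complex.cpow_eq_zero_iff]
        tauto
      have h2 : (n : ℂ) ^ s ≠ 0 := by
        rw [Ne, Complex.cpow_eq_zero_iff]
        tauto
      field_simp

end Pool.Agent.Q255.SV
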