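import Pool.Agent.Q79.L2.LA
import Pool.Agent.Q190.EP.Eng

/-!
# Twisted Dirichlet polynomials of families with bounded coefficients, laws of information `x^(δ+o(1))`
-/

set_option autoImplicit false

namespace Pool.Agent.Q255.SV

open Filter Topology MeasureTheory Finset
open Pool.Agent.Q255.IC Pool.Agent.Q255.IR Pool.Agent.Q255.EP Pool.Agent.Q255.L2 Pool.Agent.Q79.L2
open scoped ENNReal

/-- summation by parts -/
theorem parts (g : ℕ → ℝ) (N : ℕ) (hN : 1 ≤ N) :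
    ∑ n ∈ Icc 1 N, g n / √(n : ℝ) = (∑ n ∈ Icc 1 N, g n) / √(N : ℝ) +
      ∑ n ∈ Ico 1 N, (∑ m ∈ Icc 1 n, g m) * (1 / √(n : ℝ) - 1 / √((n + 1 : ℕ) : ℝ)) := by
  induction N, hN using Nat.le_induction with
  | base => simp
  | succ N hN ih =>
    rw [← Finset.insert_Icc_right_eq_Icc_add_one (by omega), sum_insert (by simp), sum_insert (by simp), ih,
      sum_Ico_succ_top hN]
    ring

theorem sqrt_step (n : ℕ) (hn : 1 ≤ n) :
    0 ≤ 1 / √(n : ℝ) - 1 / √((n + 1 : ℕ) : ℝ) ∧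
      √(n : ℝ) * (1 / √(n : ℝ) - 1 / √((n + 1 : ℕ) : ℝ)) ≤ 1 / n := by
  have hn0 : (0 : ℝ) < n := by exact_mod_cast hn
  have h0 : 0 < √(n : ℝ) := Real.sqrt_pos.2 hn0
  have h1 : √(n : ℝ) ≤ √((n + 1 : ℕ) : ℝ) := Real.sqrt_le_sqrt (by push_cast; linarith)
  have h2 : 0 < √((n + 1 : ℕ) : ℝ) := h0.trans_le h1
  refine ⟨sub_nonneg.2 (one_div_le_one_div_of_le h0 h1), ?_⟩
  have h3 : √(n : ℝ) * (1 / √(n : ℝ) - 1 / √((n + 1 : ℕ) : ℝ)) =
      (√((n + 1 : ℕ) : ℝ) - √(n : ℝ)) / √((n + 1 : ℕ) : ℝ) := by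
    field_simp
  have h4 : (√((n + 1 : ℕ) : ℝ) - √(n : ℝ)) * (√((n + 1 : ℕ) : ℝ) + √(n : ℝ)) = 1 := by
    have e1 := Real.mul_self_sqrt (show (0 : ℝ) ≤ ((n + 1 : ℕ) : ℝ) by positivity)
    have e2 := Real.mul_self_sqrt hn0.le
    push_cast at e1 ⊢
    nlinarith
  rw [h3, div_le_div_iff₀ h2 hn0]
  have h5 : (n : ℝ) = √(n : ℝ) * √(n : ℝ) := (Real.mul_self_sqrt hn0.le).symm
  have h6 : 0 ≤ √((n + 1 : ℕ) : ℝ) - √(n : ℝ) := by linarith
  have h7 : (√((n + 1 : ℕ) : ℝ) - √(n : ℝ)) * (n : ℝ) ≤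
      (√((n + 1 : ℕ) : ℝ) - √(n : ℝ)) * ((√((n + 1 : ℕ) : ℝ) + √(n : ℝ)) * √((n + 1 : ℕ) : ℝ)) := by
    refine mul_le_mul_of_nonneg_left ?_ h6
    nlinarith
  calc (√((n + 1 : ℕ) : ℝ) - √(n : ℝ)) * (n : ℝ)
      ≤ (√((n + 1 : ℕ) : ℝ) - √(n : ℝ)) * ((√((n + 1 : ℕ) : ℝ) + √(n : ℝ)) * √((n + 1 : ℕ) : ℝ)) := h7
    _ = ((√((n + 1 : ℕ) : ℝ) - √(n : ℝ)) * (√((n + 1 : ℕ) : ℝ) + √(n : ℝ))) * √((n + 1 : ℕ) : ℝ) := by ring
    _ = 1 * √((n + 1 : ℕ) : ℝ) := by rw [h4]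

theorem abel_bd (g : ℕ → ℝ) (B δ : ℝ) (hB : 0 ≤ B) (hδ : 0 ≤ δ) (N : ℕ) (hN : 1 ≤ N)
    (h : ∀ n, 1 ≤ n → n ≤ N → |∑ m ∈ Icc 1 n, g m| ≤ B * (n : ℝ) ^ ((1 + δ) / 2)) :
    |∑ n ∈ Icc 1 N, g n / √(n : ℝ)| ≤ B * (N : ℝ) ^ (δ / 2) * (2 + Real.log N) := by
  have hN0 : (0 : ℝ) < N := by exact_mod_cast hN
  have key : ∀ n : ℕ, 1 ≤ n → (n : ℝ) ^ ((1 + δ) / 2) = (n : ℝ) ^ (δ / 2) * √(n : ℝ) := by
    intro n hn
    have hn0 : (0 : ℝ) < n := by exact_mod_cast hn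
    rw [Real.sqrt_eq_rpow, ← Real.rpow_add hn0]
    congr 1
    ring
  rw [parts g N hN]
  have h1 : |(∑ n ∈ Icc 1 N, g n) / √(N : ℝ)| ≤ B * (N : ℝ) ^ (δ / 2) := by
    rw [abs_div, abs_of_nonneg (Real.sqrt_nonneg _), div_le_iff₀ (Real.sqrt_pos.2 hN0)]
    refine (h N hN le_rfl).trans (le_of_eq ?_)
    rw [key N hN]
    ring
  have h2 : |∑ n ∈ Ico 1 N, (∑ m ∈ Icc 1 n, g m) * (1 / √(n : ℝ) - 1 / √((n + 1 : ℕ) : ℝ))| ≤
      B * (N : ℝ) ^ (δ / 2) * (1 + Real.log N) := by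
    refine (abs_sum_le_sum_abs _ _).trans ?_
    have h3 : ∀ n ∈ Ico 1 N, |(∑ m ∈ Icc 1 n, g m) * (1 / √(n : ℝ) - 1 / √((n + 1 : ℕ) : ℝ))| ≤
        B * (N : ℝ) ^ (δ / 2) * (n : ℝ)⁻¹ := by
      intro n hn
      rw [Finset.mem_Ico] at hn
      obtain ⟨s1, s2⟩ := sqrt_step n hn.1
      rw [abs_mul, abs_of_nonneg s1]
      have h4 := h n hn.1 hn.2.le
      rw [key n hn.1] at h4
      have h5 : (n : ℝ) ^ (δ / 2) ≤ (N : ℝ) ^ (δ / 2) :=
        Real.rpow_le_rpow (Nat.cast_nonneg _) (by exact_mod_cast hn.2.le) (by positivity)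
      have h6 : (0 : ℝ) ≤ (n : ℝ) ^ (δ / 2) := Real.rpow_nonneg (Nat.cast_nonneg _) _
      calc |∑ m ∈ Icc 1 n, g m| * (1 / √(n : ℝ) - 1 / √((n + 1 : ℕ) : ℝ))
          ≤ (B * ((n : ℝ) ^ (δ / 2) * √(n : ℝ))) * (1 / √(n : ℝ) - 1 / √((n + 1 : ℕ) : ℝ)) :=
            mul_le_mul_of_nonneg_right h4 s1
        _ = (B * (n : ℝ) ^ (δ / 2)) * (√(n : ℝ) * (1 / √(n : ℝ) - 1 / √((n + 1 : ℕ) : ℝ))) := by ring
        _ ≤ (B * (N : ℝ) ^ (δ / 2)) * (1 / n) := by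
            refine mul_le_mul (mul_le_mul_of_nonneg_left h5 hB) s2 (mul_nonneg (Real.sqrt_nonneg _) s1)
              (mul_nonneg hB (h6.trans h5))
        _ = _ := by rw [one_div]
    refine (sum_le_sum h3).trans ?_
    rw [← mul_sum]
    refine mul_le_mul_of_nonneg_left ?_ (mul_nonneg hB (Real.rpow_nonneg (Nat.cast_nonneg _) _))
    have h4 : ∑ n ∈ Ico 1 N, (n : ℝ)⁻¹ ≤ (harmonic N : ℝ) := by
      rw [harmonic_eq_sum_Icc]
      push_cast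
      refine sum_le_sum_of_subset_of_nonneg (fun x hx => ?_) fun _ _ _ => by positivity
      rw [Finset.mem_Ico] at hx
      rw [Finset.mem_Icc]
      omega
    exact h4.trans (harmonic_le_one_add_log N)
  calc _ ≤ _ := abs_add_le _ _
    _ ≤ B * (N : ℝ) ^ (δ / 2) + B * (N : ℝ) ^ (δ / 2) * (1 + Real.log N) := add_le_add h1 h2
    _ = _ := by ring

/-- the weights -/
noncomputable def w0 (a : ℕ → ℝ) (c : ℝ) (N : ℕ) (t : ℝ) (b : Bool) (n : ℕ) : ℝ :=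
  if n ∈ Icc 1 N then a n / c * tr b (t * Real.log n) else 0

/-- `I(x) ≤ x^(δ+o(1))` -/
def IL' (ν : Measure (ℕ → Bool)) (δ : ℝ) : Prop :=
  ∀ ε : ℝ, 0 < ε → ∀ᶠ x : ℕ in atTop, D ν (Nat.primeCounting x) ≤ (x : ℝ) ^ (δ + ε)

theorem lin_pow (e : ℝ) (he : 0 < e) : ∃ C : ℝ, 0 ≤ C ∧ ∀ J : ℕ, 2 + (J : ℝ) ≤ C * (2 : ℝ) ^ (e * J) := by
  have hl : 0 < e * Real.log 2 := mul_pos he (Real.log_pos (by norm_num))
  refine ⟨2 + 1 / (e * Real.log 2), by positivity, fun J => ?_⟩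
  have h1 : e * Real.log 2 * J + 1 ≤ (2 : ℝ) ^ (e * J) := by
    rw [Real.rpow_def_of_pos two_pos]
    have := Real.add_one_le_exp (Real.log 2 * (e * J))
    calc e * Real.log 2 * J + 1 = Real.log 2 * (e * J) + 1 := by ring
      _ ≤ _ := this
  have hJ : (0 : ℝ) ≤ J := Nat.cast_nonneg J
  have h2 : (1 : ℝ) ≤ (2 : ℝ) ^ (e * J) := Real.one_le_rpow (by norm_num) (by positivity)
  have h3 : (J : ℝ) ≤ 1 / (e * Real.log 2) * (2 : ℝ) ^ (e * J) := by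
    rw [one_div, inv_mul_eq_div, le_div_iff₀ hl]
    nlinarith
  nlinarith

/-- **Upper bound, real coefficients.** -/
theorem la_sup (h : S_ENG) (ν : Measure (ℕ → Bool)) [IsProbabilityMeasure ν] (δ : ℝ) (hδ : 0 ≤ δ)
    (hD : IL' ν δ) (ι : Type) (T : ι → ℝ) (a : ι → ℕ → ℝ) (A : ℝ) (hFam : Fam T A)
    (ha : ∀ ε : ℝ, 0 < ε → ∃ C : ℝ, ∀ (i : ι) (n : ℕ), 1 ≤ n → |a i n| ≤ C * ((n : ℝ) * T i) ^ ε) :
    ∀ᵐ ω ∂ν, ∀ ε : ℝ, 0 < ε → ∃ C : ℝ, ∀ (i : ι) (N : ℕ) (t : ℝ), 1 ≤ N →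
      ‖∑ n ∈ Icc 1 N, ((a i n * cm ω n : ℝ) : ℂ) * (n : ℂ) ^ (-(1 / 2 : ℂ) - t * Complex.I)‖ ≤
        C * ((N : ℝ) * T i * (1 + |t|)) ^ ε * (N : ℝ) ^ (δ / 2) := by
  classical
  obtain ⟨hT, hfin⟩ := hFam
  choose C0 hC0 using fun m : ℕ => ha (1 / ((m : ℝ) + 1)) (by positivity)
  obtain ⟨C₁, hC₁⟩ := ha 1 one_pos
  let nrm : ℕ → ℕ → ℝ := fun m J => (1 + |C0 m|) * ((4 : ℝ) ^ J) ^ (1 / ((m : ℝ) + 1))
  have hnrm : ∀ m J, 0 < nrm m J := fun m J => by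
    show 0 < (1 + |C0 m|) * ((4 : ℝ) ^ J) ^ (1 / ((m : ℝ) + 1))
    positivity
  have hcoef0 : ∀ (m J : ℕ) (i : ι) (n : ℕ), 1 ≤ n → n ≤ 2 ^ J → T i ≤ 2 ^ J → |a i n| ≤ nrm m J := by
    intro m J i n hn hnJ hTJ
    have hTi := hT i
    have hn1 : (1 : ℝ) ≤ n := by exact_mod_cast hn
    have hnJ' : (n : ℝ) ≤ 2 ^ J := by exact_mod_cast hnJ
    have g1 : (n : ℝ) * T i ≤ 4 ^ J := by
      calc (n : ℝ) * T i ≤ 2 ^ J * 2 ^ J := mul_le_mul hnJ' hTJ (by linarith) (by positivity)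
        _ = 4 ^ J := by rw [← mul_pow]; norm_num
    have g2 : ((n : ℝ) * T i) ^ (1 / ((m : ℝ) + 1)) ≤ ((4 : ℝ) ^ J) ^ (1 / ((m : ℝ) + 1)) :=
      Real.rpow_le_rpow (by positivity) g1 (by positivity)
    have g3 : 0 ≤ ((n : ℝ) * T i) ^ (1 / ((m : ℝ) + 1)) := Real.rpow_nonneg (by positivity) _
    calc |a i n| ≤ C0 m * ((n : ℝ) * T i) ^ (1 / ((m : ℝ) + 1)) := hC0 m i n hn
      _ ≤ (1 + |C0 m|) * ((n : ℝ) * T i) ^ (1 / ((m : ℝ) + 1)) :=
          mul_le_mul_of_nonneg_right (by linarith [le_abs_self (C0 m)]) g3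
      _ ≤ _ := mul_le_mul_of_nonneg_left g2 (by positivity)
  let W : ℕ → ℕ → Finset (ℕ → ℝ) := fun m J =>
    Finset.image (fun q : ι × ℕ × ℕ × Bool =>
      w0 (a q.1) (nrm m J) (min q.2.1 (2 ^ J)) ((q.2.2.1 : ℝ) / 16 ^ J - 2 ^ (J + 1)) q.2.2.2)
      (((hfin (2 ^ J) (one_le_pow₀ (by norm_num))).1.toFinset) ×ˢ (range (32 ^ J + 1) ×ˢ
        (range ((3 + 1) * 32 ^ J + 1) ×ˢ (univ : Finset Bool))))
  have hmain : ∀ᵐ ω ∂ν, ∀ m : ℕ, ∀ ε : ℝ, 0 < ε → ∃ C : ℝ, ∀ J, ∀ w ∈ W m J, ∀ M : ℕ,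
      (∀ n, M < n → w n = 0) →
        |∑ n ∈ Finset.Icc 1 M, w n * cm ω n| ≤ C * (2 : ℝ) ^ (ε * J) * (M : ℝ) ^ ((1 + δ) / 2) := by
    rw [ae_all_iff]
    intro m
    obtain ⟨A', hA'⟩ := card_bd A 3
    refine h ν δ hδ hD (W m) A' ?_ ?_ ?_
    · intro J w hw n
      obtain ⟨q, hq, rfl⟩ := Finset.mem_image.1 hw
      rw [mem_product, mem_product, mem_product, Set.Finite.mem_toFinset] at hq
      unfold w0
      split_ifs with hn
      · rw [mem_Icc] at hn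
        rw [abs_mul, abs_div, abs_of_pos (hnrm m J)]
        refine mul_le_one₀ ?_ (abs_nonneg _) (tr_le _ _)
        rw [div_le_one (hnrm m J)]
        exact hcoef0 m J q.1 n hn.1 (hn.2.trans (min_le_right _ _)) hq.1
      · rw [abs_zero]
        exact zero_le_one
    · intro J w hw n hn
      obtain ⟨q, _, rfl⟩ := Finset.mem_image.1 hw
      unfold w0
      rw [if_neg]
      rw [mem_Icc]
      intro h1
      exact absurd (h1.2.trans (min_le_right _ _)) (by omega)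
    · intro J
      have hN := (hfin (2 ^ J) (one_le_pow₀ (by norm_num))).2
      rw [Set.ncard_eq_toFinset_card _ (hfin (2 ^ J) (one_le_pow₀ (by norm_num))).1] at hN
      refine le_trans ?_ (hA' J _ hN)
      refine Nat.cast_le.2 (Finset.card_image_le.trans (le_of_eq ?_))
      rw [card_product, card_product, card_product, card_range, card_range, card_univ,
        Fintype.card_bool]
  filter_upwards [hmain] with ω hω ε hε
  set e := ε / 8 with he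
  have he0 : 0 < e := by positivity
  obtain ⟨m, hm⟩ := exists_nat_one_div_lt he0
  obtain ⟨C₂, hC₂⟩ := hω m e he0
  obtain ⟨C₅, hC₅0, hC₅⟩ := lin_pow e he0
  set K : ℝ := |C₁| with hK
  have hK0 : 0 ≤ K := abs_nonneg _
  have hcoef : ∀ (i : ι) {n : ℕ}, 1 ≤ n → |a i n| ≤ K * (n * T i) := by
    intro i n hn
    have h1 := hC₁ i n hn
    rw [Real.rpow_one] at h1
    have hTi := hT i
    exact h1.trans (mul_le_mul_of_nonneg_right (le_abs_self _) (by positivity))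
  set C₃ : ℝ := |C₂| * (1 + |C0 m|) with hC₃
  have hC₃0 : 0 ≤ C₃ := by positivity
  -- the net
  have hnet : ∀ (i : ι) (J N q : ℕ) (b : Bool), T i ≤ 2 ^ J → N ≤ 2 ^ J → q < (3 + 1) * 32 ^ J + 1 →
      |∑ n ∈ Icc 1 N, a i n * cm ω n * tr b (((q : ℝ) / 16 ^ J - 2 ^ (J + 1)) * Real.log n)| ≤
        C₃ * (2 : ℝ) ^ (3 * e * J) * (N : ℝ) ^ ((1 + δ) / 2) := by
    intro i J N q b hTJ hNJ hq
    set t' : ℝ := (q : ℝ) / 16 ^ J - 2 ^ (J + 1) with ht'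
    have hmem : w0 (a i) (nrm m J) N t' b ∈ W m J := by
      refine Finset.mem_image.2 ⟨(i, N, q, b), ?_, ?_⟩
      · rw [mem_product, mem_product, mem_product, Set.Finite.mem_toFinset, mem_range, mem_range]
        refine ⟨hTJ, ?_, hq, mem_univ _⟩
        have : 2 ^ J ≤ 32 ^ J := Nat.pow_le_pow_left (by norm_num) J
        show N < 32 ^ J + 1
        omega
      · show w0 (a i) (nrm m J) (min N (2 ^ J)) _ _ = _
        rw [min_eq_left hNJ]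
    have h5 := hC₂ J _ hmem N (fun n hn => by
      unfold w0
      rw [if_neg]
      rw [mem_Icc]
      omega)
    have h6 : ∑ n ∈ Icc 1 N, a i n * cm ω n * tr b (t' * Real.log n) =
        nrm m J * ∑ n ∈ Icc 1 N, w0 (a i) (nrm m J) N t' b n * cm ω n := by
      rw [mul_sum]
      refine sum_congr rfl fun n hn => ?_
      unfold w0
      rw [if_pos hn]
      have := (hnrm m J).ne'
      field_simp
    rw [h6, abs_mul, abs_of_pos (hnrm m J)]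
    have h7 : nrm m J ≤ (1 + |C0 m|) * (2 : ℝ) ^ (2 * e * J) := by
      show (1 + |C0 m|) * ((4 : ℝ) ^ J) ^ (1 / ((m : ℝ) + 1)) ≤ _
      refine mul_le_mul_of_nonneg_left ?_ (by positivity)
      have g0 : (1 : ℝ) ≤ (4 : ℝ) ^ J := one_le_pow₀ (by norm_num)
      calc ((4 : ℝ) ^ J) ^ (1 / ((m : ℝ) + 1)) ≤ ((4 : ℝ) ^ J) ^ e :=
            Real.rpow_le_rpow_of_exponent_le g0 hm.le
        _ = (2 : ℝ) ^ (2 * e * J) := by
            have : (4 : ℝ) ^ J = (2 : ℝ) ^ (2 * J) := by rw [pow_mul]; norm_num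
            rw [this, ← Real.rpow_natCast, ← Real.rpow_mul two_pos.le]
            congr 1
            push_cast
            ring
    have hNp : (0 : ℝ) ≤ (N : ℝ) ^ ((1 + δ) / 2) := Real.rpow_nonneg (Nat.cast_nonneg _) _
    have hp : (0 : ℝ) ≤ (2 : ℝ) ^ (e * (J : ℝ)) := Real.rpow_nonneg two_pos.le _
    calc nrm m J * |∑ n ∈ Icc 1 N, w0 (a i) (nrm m J) N t' b n * cm ω n|
        ≤ ((1 + |C0 m|) * (2 : ℝ) ^ (2 * e * J)) * (|C₂| * (2 : ℝ) ^ (e * J) * (N : ℝ) ^ ((1 + δ) / 2)) := by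
          refine mul_le_mul h7 (h5.trans ?_) (abs_nonneg _) (by positivity)
          exact mul_le_mul_of_nonneg_right (mul_le_mul_of_nonneg_right (le_abs_self _) hp) hNp
      _ = C₃ * (2 : ℝ) ^ (3 * e * J) * (N : ℝ) ^ ((1 + δ) / 2) := by
          rw [hC₃, show 3 * e * (J : ℝ) = 2 * e * J + e * J by ring, Real.rpow_add two_pos]
          ring
  refine ⟨2 * ((C₃ + K) * C₅) * 2 ^ ε, fun i N t hN => ?_⟩
  have hTi := hT i
  have hN1 : (1 : ℝ) ≤ N := by exact_mod_cast hN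
  have ht0 := abs_nonneg t
  set z : ℝ := (N : ℝ) * T i * (1 + |t|) with hz
  have hNT : 1 ≤ (N : ℝ) * T i := by nlinarith
  have hz1 : 1 ≤ z := by rw [hz]; nlinarith
  obtain ⟨J, hJ1, hJ2⟩ := exists_scale1 z hz1
  have hTJ : T i ≤ 2 ^ J := by
    refine le_trans ?_ hJ1
    rw [hz]
    have : T i ≤ (N : ℝ) * T i := by nlinarith
    nlinarith
  have hNJR : (N : ℝ) ≤ 2 ^ J := by
    refine le_trans ?_ hJ1
    rw [hz]
    have : (N : ℝ) ≤ (N : ℝ) * T i := by nlinarith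
    nlinarith
  have hNJ : N ≤ 2 ^ J := by exact_mod_cast hNJR
  have htJ : |t| ≤ 2 ^ J := by
    refine le_trans ?_ hJ1
    rw [hz]
    nlinarith
  -- the point of the net
  set q : ℕ := ⌊(t + 2 ^ (J + 1)) * 16 ^ J⌋₊ with hq
  have h16 : (0 : ℝ) < 16 ^ J := by positivity
  have ht := abs_le.1 htJ
  have h2J : (1 : ℝ) ≤ 2 ^ J := one_le_pow₀ (by norm_num)
  have hpos : 0 ≤ (t + 2 ^ (J + 1)) * 16 ^ J := by
    refine mul_nonneg ?_ h16.le
    rw [pow_succ]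
    linarith [ht.1]
  have hq1 : (q : ℝ) ≤ (t + 2 ^ (J + 1)) * 16 ^ J := Nat.floor_le hpos
  have hq2 : (t + 2 ^ (J + 1)) * 16 ^ J < q + 1 := Nat.lt_floor_add_one _
  set t' : ℝ := (q : ℝ) / 16 ^ J - 2 ^ (J + 1) with ht'
  have hqlt : q < (3 + 1) * 32 ^ J + 1 := by
    have g1 : (q : ℝ) ≤ 3 * 32 ^ J := by
      refine hq1.trans ?_
      have g2 : (32 : ℝ) ^ J = 2 ^ J * 16 ^ J := by rw [← mul_pow]; norm_num
      rw [g2, ← mul_assoc]
      refine mul_le_mul_of_nonneg_right ?_ h16.le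
      rw [pow_succ]
      linarith [ht.2]
    have g3 : q ≤ 3 * 32 ^ J := by exact_mod_cast g1
    omega
  have hdist : |t - t'| ≤ 1 / 16 ^ J := by
    have g1 : t - t' = ((t + 2 ^ (J + 1)) * 16 ^ J - q) / 16 ^ J := by
      rw [ht']
      field_simp
      ring
    rw [g1, abs_div, abs_of_pos h16]
    refine div_le_div_of_nonneg_right ?_ h16.le
    rw [abs_le]
    constructor <;> linarith
  -- one of the two sums, without the factor `1/√n`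
  have hone0 : ∀ (b : Bool) (n : ℕ), 1 ≤ n → n ≤ N →
      |∑ m ∈ Icc 1 n, a i m * cm ω m * tr b (t * Real.log m)| ≤
        (C₃ * (2 : ℝ) ^ (3 * e * J) + K) * (n : ℝ) ^ ((1 + δ) / 2) := by
    intro b n hn hnN
    have g1 := hnet i J n q b hTJ (hnN.trans hNJ) hqlt
    rw [← ht'] at g1
    have hn1 : (1 : ℝ) ≤ n := by exact_mod_cast hn
    have hnJR : (n : ℝ) ≤ 2 ^ J := le_trans (by exact_mod_cast hnN) hNJR
    have g3 : |∑ m ∈ Icc 1 n, a i m * cm ω m * tr b (t * Real.log m) -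
        ∑ m ∈ Icc 1 n, a i m * cm ω m * tr b (t' * Real.log m)| ≤ K := by
      rw [← sum_sub_distrib]
      refine (abs_sum_le_sum_abs _ _).trans ?_
      have g4 : ∀ m ∈ Icc 1 n, |a i m * cm ω m * tr b (t * Real.log m) -
          a i m * cm ω m * tr b (t' * Real.log m)| ≤ K * (2 ^ J * 2 ^ J * 2 ^ J) * (1 / 16 ^ J) := by
        intro m hm'
        rw [mem_Icc] at hm'
        have hm1 : (1 : ℝ) ≤ m := by exact_mod_cast hm'.1
        have hmN : (m : ℝ) ≤ 2 ^ J := le_trans (by exact_mod_cast hm'.2) hnJR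
        rw [← mul_sub, abs_mul, abs_mul, Pool.Agent.Q13.EP.abs_cm, mul_one]
        have e1 : |a i m| ≤ K * (2 ^ J * 2 ^ J) := by
          calc |a i m| ≤ K * (m * T i) := hcoef i hm'.1
            _ ≤ K * (2 ^ J * 2 ^ J) := by gcongr
        have e3 : |tr b (t * Real.log m) - tr b (t' * Real.log m)| ≤ 2 ^ J * (1 / 16 ^ J) := by
          refine (tr_lip _ _ _).trans ?_
          rw [← sub_mul, abs_mul, mul_comm]
          have e4 : |Real.log m| ≤ 2 ^ J := by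
            rw [abs_of_nonneg (Real.log_nonneg hm1)]
            exact (Real.log_le_self (by linarith)).trans hmN
          exact mul_le_mul e4 hdist (abs_nonneg _) (by positivity)
        calc |a i m| * |tr b (t * Real.log m) - tr b (t' * Real.log m)|
            ≤ K * (2 ^ J * 2 ^ J) * (2 ^ J * (1 / 16 ^ J)) :=
              mul_le_mul e1 e3 (abs_nonneg _) (by positivity)
          _ = _ := by ring
      refine (sum_le_sum g4).trans ?_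
      rw [sum_const, Nat.card_Icc, Nat.add_sub_cancel, nsmul_eq_mul]
      have g5 : (16 : ℝ) ^ J = 2 ^ J * (2 ^ J * 2 ^ J * 2 ^ J) := by
        rw [← mul_pow, ← mul_pow, ← mul_pow]
        norm_num
      calc (n : ℝ) * (K * (2 ^ J * 2 ^ J * 2 ^ J) * (1 / 16 ^ J))
          ≤ 2 ^ J * (K * (2 ^ J * 2 ^ J * 2 ^ J) * (1 / 16 ^ J)) := by gcongr
        _ = K := by
            rw [g5]
            field_simp
    have g6 := abs_sub_abs_le_abs_sub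
      (∑ m ∈ Icc 1 n, a i m * cm ω m * tr b (t * Real.log m))
      (∑ m ∈ Icc 1 n, a i m * cm ω m * tr b (t' * Real.log m))
    have g7 : (1 : ℝ) ≤ (n : ℝ) ^ ((1 + δ) / 2) := Real.one_le_rpow hn1 (by positivity)
    have g8 := mul_le_mul_of_nonneg_left g7 hK0
    rw [add_mul]
    linarith
  have hpw : (1 : ℝ) ≤ (2 : ℝ) ^ (3 * e * J) := Real.one_le_rpow (by norm_num) (by positivity)
  have hB0 : 0 ≤ C₃ * (2 : ℝ) ^ (3 * e * J) + K := by positivity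
  have hNd : 0 ≤ (N : ℝ) ^ (δ / 2) := Real.rpow_nonneg (Nat.cast_nonneg _) _
  have hone : ∀ b : Bool, |∑ n ∈ Icc 1 N, (a i n * cm ω n) / √(n : ℝ) * tr b (t * Real.log n)| ≤
      (C₃ + K) * C₅ * (2 : ℝ) ^ (4 * e * J) * (N : ℝ) ^ (δ / 2) := by
    intro b
    have g1 := abel_bd (fun n => a i n * cm ω n * tr b (t * Real.log n)) _ δ hB0 hδ N hN (hone0 b)
    have g2 : ∑ n ∈ Icc 1 N, (a i n * cm ω n) / √(n : ℝ) * tr b (t * Real.log n) =
        ∑ n ∈ Icc 1 N, a i n * cm ω n * tr b (t * Real.log n) / √(n : ℝ) :=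
      sum_congr rfl fun n _ => by ring
    rw [g2]
    refine g1.trans ?_
    have g3 : 2 + Real.log N ≤ 2 + J := by
      have : Real.log N ≤ Real.log (2 ^ J) := Real.log_le_log (by linarith) hNJR
      rw [Real.log_pow] at this
      have h2 : Real.log 2 ≤ 1 := by linarith [Real.log_two_lt_d9]
      have hJ0 : (0 : ℝ) ≤ J := Nat.cast_nonneg J
      nlinarith
    have g4 := g3.trans (hC₅ J)
    have g5 : 0 ≤ 2 + Real.log N := by
      have := Real.log_nonneg hN1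
      linarith
    calc (C₃ * (2 : ℝ) ^ (3 * e * J) + K) * (N : ℝ) ^ (δ / 2) * (2 + Real.log N)
        ≤ ((C₃ + K) * (2 : ℝ) ^ (3 * e * J)) * (N : ℝ) ^ (δ / 2) * (C₅ * (2 : ℝ) ^ (e * J)) := by
          refine mul_le_mul (mul_le_mul_of_nonneg_right ?_ hNd) g4 g5 (by positivity)
          have := mul_le_mul_of_nonneg_left hpw hK0
          rw [add_mul]
          linarith
      _ = _ := by
          rw [show 4 * e * (J : ℝ) = 3 * e * J + e * J by ring, Real.rpow_add two_pos]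
          ring
  have hfin1 := norm_le (fun n => a i n * cm ω n) N t
  have ht1 := hone true
  have ht2 := hone false
  have hpow : (2 : ℝ) ^ (4 * e * J) ≤ 2 ^ ε * z ^ ε := by
    calc (2 : ℝ) ^ (4 * e * J) ≤ (2 : ℝ) ^ (ε * J) := by
          refine Real.rpow_le_rpow_of_exponent_le (by norm_num) ?_
          refine mul_le_mul_of_nonneg_right ?_ (Nat.cast_nonneg _)
          rw [he]
          linarith
      _ = ((2 : ℝ) ^ J) ^ ε := by
          rw [← Real.rpow_natCast, ← Real.rpow_mul two_pos.le, mul_comm]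
      _ ≤ (2 * z) ^ ε := Real.rpow_le_rpow (by positivity) hJ2 hε.le
      _ = 2 ^ ε * z ^ ε := Real.mul_rpow two_pos.le (by linarith)
  have hc0 : 0 ≤ (C₃ + K) * C₅ := by positivity
  calc ‖∑ n ∈ Icc 1 N, ((a i n * cm ω n : ℝ) : ℂ) * (n : ℂ) ^ (-(1 / 2 : ℂ) - t * Complex.I)‖
      ≤ 2 * ((C₃ + K) * C₅ * (2 : ℝ) ^ (4 * e * J) * (N : ℝ) ^ (δ / 2)) := by linarith
    _ ≤ 2 * ((C₃ + K) * C₅ * (2 ^ ε * z ^ ε) * (N : ℝ) ^ (δ / 2)) := by
        have g1 := mul_le_mul_of_nonneg_right (mul_le_mul_of_nonneg_left hpow hc0) hNd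
        linarith
    _ = 2 * ((C₃ + K) * C₅) * 2 ^ ε * z ^ ε * (N : ℝ) ^ (δ / 2) := by ring

end Pool.Agent.Q255.SV
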